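import Mathlib

/-!
# Chains of tuples modulo 2: boundary, cones, subdivision

Purely combinatorial part of the small simplices theorem: `TCh k V` is the `ZMod 2`-module with
basis the `k`-tuples of elements of a type `V`.
-/

namespace SingHom

open Finset

/-- Chains of `k`-tuples modulo 2. -/
abbrev TCh (k : ℕ) (V : Type*) := (Fin k → V) →₀ ZMod 2

variable {V W : Type*}

/-- boundary -/
noncomputable def tbd (k : ℕ) (V : Type*) : TCh (k + 1) V →ₗ[ZMod 2] TCh k V :=
  Finsupp.linearCombination (ZMod 2)
    (fun w => ∑ j : Fin (k + 1), Finsupp.single (w ∘ j.succAbove) (1 : ZMod 2))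

/-- cone with apex `b` -/
noncomputable def tcone (k : ℕ) (b : V) : TCh k V →ₗ[ZMod 2] TCh (k + 1) V :=
  Finsupp.linearCombination (ZMod 2)
    (fun w => Finsupp.single (Fin.cons b w : Fin (k + 1) → V) (1 : ZMod 2))

/-- functoriality -/
noncomputable def tmap (k : ℕ) (f : V → W) : TCh k V →ₗ[ZMod 2] TCh k W :=
  Finsupp.linearCombination (ZMod 2) (fun w => Finsupp.single (f ∘ w) (1 : ZMod 2))

theorem tbd_single (k : ℕ) (w : Fin (k + 1) → V) :
    tbd k V (Finsupp.single w 1) = ∑ j : Fin (k + 1), Finsupp.single (w ∘ j.succAbove) 1 := by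
  simp [tbd]

theorem tcone_single (k : ℕ) (b : V) (w : Fin k → V) :
    tcone k b (Finsupp.single w 1) = Finsupp.single (Fin.cons b w : Fin (k + 1) → V) 1 := by
  simp [tcone]

theorem tmap_single (k : ℕ) (f : V → W) (w : Fin k → V) :
    tmap k f (Finsupp.single w 1) = Finsupp.single (f ∘ w) 1 := by
  simp [tmap]

/-- two linear maps on chains agreeing on tuples are equal -/
theorem tch_ext {k : ℕ} {M : Type*} [AddCommMonoid M] [Module (ZMod 2) M]
    {f g : TCh k V →ₗ[ZMod 2] M}
    (h : ∀ w, f (Finsupp.single w 1) = g (Finsupp.single w 1)) : f = g := by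
  ext w
  simpa using h w

theorem add_self_tch {k : ℕ} (c : TCh k V) : c + c = 0 := by
  ext w
  simpa using CharTwo.add_self_eq_zero (c w)

/-- the pairing of double faces -/
def facePair (k : ℕ) (p : Fin (k + 2) × Fin (k + 1)) : Fin (k + 2) × Fin (k + 1) :=
  if h : (p.2 : ℕ) < p.1 then
    (⟨p.2, by have := p.2.2; omega⟩, ⟨(p.1 : ℕ) - 1, by have := p.1.2; omega⟩)
  else (⟨(p.2 : ℕ) + 1, by have := p.2.2; omega⟩, ⟨(p.1 : ℕ), by have := p.2.2; omega⟩)

theorem facePair_facePair (k : ℕ) (p : Fin (k + 2) × Fin (k + 1)) :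
    facePair k (facePair k p) = p := by
  obtain ⟨i, j⟩ := p
  by_cases h : (j : ℕ) < i
  · have h2 : ¬ ((i : ℕ) - 1 < j) := by omega
    simp only [facePair, h, dif_pos, h2, dif_neg, not_false_iff]
    ext
    · simp; omega
    · simp
  · have h2 : (i : ℕ) < (j : ℕ) + 1 := by omega
    simp only [facePair, h, dif_pos, h2, dif_neg, not_false_iff]
    ext
    · simp
    · simp

theorem facePair_ne (k : ℕ) (p : Fin (k + 2) × Fin (k + 1)) : facePair k p ≠ p := by
  obtain ⟨i, j⟩ := p
  by_cases h : (j : ℕ) < i
  · simp only [facePair, h, dif_pos]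
    intro e
    have := congrArg (fun q : Fin (k + 2) × Fin (k + 1) => (q.1 : ℕ)) e
    simp at this
    omega
  · simp only [facePair, h, dif_neg, not_false_iff]
    intro e
    have := congrArg (fun q : Fin (k + 2) × Fin (k + 1) => (q.1 : ℕ)) e
    simp at this
    omega

theorem facePair_comp (k : ℕ) (p : Fin (k + 2) × Fin (k + 1)) (w : Fin (k + 2) → V) :
    (w ∘ (facePair k p).1.succAbove) ∘ (facePair k p).2.succAbove
      = (w ∘ p.1.succAbove) ∘ p.2.succAbove := by
  obtain ⟨i, j⟩ := p
  funext l
  simp only [Function.comp_apply]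
  congr 1
  ext
  by_cases h : (j : ℕ) < i
  · simp only [facePair, h, dif_pos]
    simp only [Fin.succAbove, Fin.lt_def]
    split_ifs <;> simp_all <;> omega
  · simp only [facePair, h, dif_neg, not_false_iff]
    simp only [Fin.succAbove, Fin.lt_def]
    split_ifs <;> simp_all <;> omega

theorem tbd_tbd (k : ℕ) (c : TCh (k + 2) V) : tbd k V (tbd (k + 1) V c) = 0 := by
  have h : (tbd k V).comp (tbd (k + 1) V) = 0 := by
    refine tch_ext fun w => ?_
    simp only [LinearMap.comp_apply, tbd_single, map_sum, LinearMap.zero_apply]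
    rw [← Finset.sum_product']
    refine Finset.sum_involution (fun p _ => facePair k p) ?_ ?_ ?_ ?_
    · intro p _
      rw [← facePair_comp k p w]
      exact add_self_tch _
    · intro p _ _
      exact facePair_ne k p
    · intro p _
      simp
    · intro p _
      exact facePair_facePair k p
  exact LinearMap.congr_fun h c

theorem tbd_tcone_succ (k : ℕ) (b : V) (c : TCh (k + 1) V) :
    tbd (k + 1) V (tcone (k + 1) b c) = c + tcone k b (tbd k V c) := by
  have h : (tbd (k + 1) V).comp (tcone (k + 1) b)
      = LinearMap.id + (tcone k b).comp (tbd k V) := by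
    refine tch_ext fun w => ?_
    simp only [LinearMap.comp_apply, tcone_single, tbd_single, LinearMap.add_apply,
      LinearMap.id_apply, map_sum]
    rw [Fin.sum_univ_succ]
    congr 1
    · refine Finset.sum_congr rfl fun j _ => ?_
      congr 1
      funext i
      refine Fin.cases ?_ (fun i => ?_) i
      · simp
      · simp [Fin.succ_succAbove_succ]
  exact LinearMap.congr_fun h c

theorem tbd_tcone_zero (b : V) (c : TCh 0 V) :
    tbd 0 V (tcone 0 b c) = c := by
  have h : (tbd 0 V).comp (tcone 0 b) = LinearMap.id := by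
    refine tch_ext fun w => ?_
    simp only [LinearMap.comp_apply, tcone_single, tbd_single, LinearMap.id_apply]
    rw [Fin.sum_univ_one]
    congr 1
  exact LinearMap.congr_fun h c

theorem tmap_tbd (k : ℕ) (f : V → W) (c : TCh (k + 1) V) :
    tmap k f (tbd k V c) = tbd k W (tmap (k + 1) f c) := by
  have h : (tmap k f).comp (tbd k V) = (tbd k W).comp (tmap (k + 1) f) := by
    refine tch_ext fun w => ?_
    simp only [LinearMap.comp_apply, tmap_single, tbd_single, map_sum]
    rfl
  exact LinearMap.congr_fun h c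

theorem tmap_tcone (k : ℕ) (f : V → W) (b : V) (c : TCh k V) :
    tmap (k + 1) f (tcone k b c) = tcone k (f b) (tmap k f c) := by
  have h : (tmap (k + 1) f).comp (tcone k b) = (tcone k (f b)).comp (tmap k f) := by
    refine tch_ext fun w => ?_
    simp only [LinearMap.comp_apply, tmap_single, tcone_single]
    congr 1
    funext i
    refine Fin.cases ?_ (fun i => ?_) i <;> simp
  exact LinearMap.congr_fun h c

theorem tmap_tmap (k : ℕ) {U : Type*} (f : V → W) (g : W → U) (c : TCh k V) :
    tmap k g (tmap k f c) = tmap k (g ∘ f) c := by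
  have h : (tmap k g).comp (tmap k f) = tmap k (g ∘ f) := by
    refine tch_ext fun w => ?_
    simp only [LinearMap.comp_apply, tmap_single]
    rfl
  exact LinearMap.congr_fun h c

variable (bc : ∀ k : ℕ, (Fin (k + 1) → V) → V)

/-- subdivision with centres `bc` -/
noncomputable def tsd : ∀ k : ℕ, TCh k V →ₗ[ZMod 2] TCh k V
  | 0 => LinearMap.id
  | k + 1 => Finsupp.linearCombination (ZMod 2)
      (fun w => tcone k (bc k w) (tsd k (tbd k V (Finsupp.single w 1))))

/-- the chain homotopy -/
noncomputable def tht : ∀ k : ℕ, TCh k V →ₗ[ZMod 2] TCh (k + 1) V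
  | 0 => 0
  | k + 1 => Finsupp.linearCombination (ZMod 2)
      (fun w => tcone (k + 1) (bc k w)
        (Finsupp.single w 1 + tht k (tbd k V (Finsupp.single w 1))))

theorem tsd_zero : tsd bc 0 = LinearMap.id := rfl

theorem tht_zero : tht bc 0 = 0 := rfl

theorem tsd_succ_single (k : ℕ) (w : Fin (k + 1) → V) :
    tsd bc (k + 1) (Finsupp.single w 1)
      = tcone k (bc k w) (tsd bc k (tbd k V (Finsupp.single w 1))) := by
  simp [tsd]

theorem tht_succ_single (k : ℕ) (w : Fin (k + 1) → V) :
    tht bc (k + 1) (Finsupp.single w 1)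
      = tcone (k + 1) (bc k w)
        (Finsupp.single w 1 + tht bc k (tbd k V (Finsupp.single w 1))) := by
  simp [tht]

theorem tbd_tsd (k : ℕ) (c : TCh (k + 1) V) :
    tbd k V (tsd bc (k + 1) c) = tsd bc k (tbd k V c) := by
  induction k with
  | zero =>
    have h : (tbd 0 V).comp (tsd bc 1) = (tsd bc 0).comp (tbd 0 V) := by
      refine tch_ext fun w => ?_
      simp only [LinearMap.comp_apply, tsd_succ_single, tbd_tcone_zero]
    exact LinearMap.congr_fun h c
  | succ k ih =>
    have h : (tbd (k + 1) V).comp (tsd bc (k + 2)) = (tsd bc (k + 1)).comp (tbd (k + 1) V) := by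
      refine tch_ext fun w => ?_
      simp only [LinearMap.comp_apply]
      rw [tsd_succ_single, tbd_tcone_succ, ih, tbd_tbd, map_zero, map_zero, add_zero]
    exact LinearMap.congr_fun h c

theorem tbd_tht (k : ℕ) (c : TCh (k + 1) V) :
    tbd (k + 1) V (tht bc (k + 1) c) + tht bc k (tbd k V c) = c + tsd bc (k + 1) c := by
  induction k with
  | zero =>
    have h : (tbd 1 V).comp (tht bc 1) + (tht bc 0).comp (tbd 0 V)
        = LinearMap.id + tsd bc 1 := by
      refine tch_ext fun w => ?_
      simp only [LinearMap.comp_apply, LinearMap.add_apply, LinearMap.id_apply]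
      rw [tht_succ_single, tbd_tcone_succ, tsd_succ_single, tht_zero, tsd_zero]
      simp
    exact LinearMap.congr_fun h c
  | succ k ih =>
    have h : (tbd (k + 2) V).comp (tht bc (k + 2)) + (tht bc (k + 1)).comp (tbd (k + 1) V)
        = LinearMap.id + tsd bc (k + 2) := by
      refine tch_ext fun w => ?_
      simp only [LinearMap.comp_apply, LinearMap.add_apply, LinearMap.id_apply]
      rw [tht_succ_single, tbd_tcone_succ, tsd_succ_single]
      have e := ih (tbd (k + 1) V (Finsupp.single w 1))
      rw [tbd_tbd, map_zero, add_zero] at e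
      rw [map_add (tbd (k + 1) V), e, ← add_assoc, add_self_tch, zero_add]
      have e2 : ∀ a b c : TCh (k + 2) V, a + b + c + b = a + c := by
        intro a b c
        rw [add_right_comm, add_assoc a b b, add_self_tch, add_zero]
      exact e2 _ _ _
    exact LinearMap.congr_fun h c

section natural

variable {bc} {bc' : ∀ k : ℕ, (Fin (k + 1) → W) → W}

theorem tmap_tsd (f : V → W) (hf : ∀ k (w : Fin (k + 1) → V), f (bc k w) = bc' k (f ∘ w))
    (k : ℕ) (c : TCh k V) : tmap k f (tsd bc k c) = tsd bc' k (tmap k f c) := by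
  induction k with
  | zero => rfl
  | succ k ih =>
    have h : (tmap (k + 1) f).comp (tsd bc (k + 1)) = (tsd bc' (k + 1)).comp (tmap (k + 1) f) := by
      refine tch_ext fun w => ?_
      simp only [LinearMap.comp_apply]
      rw [tsd_succ_single, tmap_tcone, ih, tmap_tbd, tmap_single, tsd_succ_single, hf]
    exact LinearMap.congr_fun h c

theorem tmap_tht (f : V → W) (hf : ∀ k (w : Fin (k + 1) → V), f (bc k w) = bc' k (f ∘ w))
    (k : ℕ) (c : TCh k V) : tmap (k + 1) f (tht bc k c) = tht bc' k (tmap k f c) := by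
  induction k with
  | zero => simp [tht_zero]
  | succ k ih =>
    have h : (tmap (k + 2) f).comp (tht bc (k + 1)) = (tht bc' (k + 1)).comp (tmap (k + 1) f) := by
      refine tch_ext fun w => ?_
      simp only [LinearMap.comp_apply]
      rw [tht_succ_single, tmap_tcone, map_add, ih, tmap_tbd, tmap_single, tht_succ_single, hf]
    exact LinearMap.congr_fun h c

end natural

end SingHom
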