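import Mathlib
import Pool.Agent.Lib.SingHom.Tup

/-!
# Affine simplices and singular chains modulo 2
-/

namespace SingHom

open Finset

/-- the standard simplex with `n` vertices -/
abbrev Sx (n : ℕ) := stdSimplex ℝ (Fin n)

/-- the affine map with vertices `w` -/
noncomputable def aff {k n : ℕ} (w : Fin k → Sx n) : C(Sx k, Sx n) where
  toFun s := ⟨∑ i, s.1 i • (w i).1, by
    refine (convex_stdSimplex ℝ (Fin n)).sum_mem (fun i _ => s.2.1 i) s.2.2 (fun i _ => (w i).2)⟩
  continuous_toFun := by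
    refine Continuous.subtype_mk ?_ _
    refine continuous_finsetSum _ (fun i _ => ?_)
    exact ((continuous_apply i).comp continuous_subtype_val).smul continuous_const

theorem aff_val {k n : ℕ} (w : Fin k → Sx n) (s : Sx k) :
    (aff w s).1 = ∑ i, s.1 i • (w i).1 := rfl

/-- the vertices -/
noncomputable def vtx (n : ℕ) (i : Fin n) : Sx n := stdSimplex.vertex i

theorem vtx_val (n : ℕ) (i : Fin n) : (vtx n i).1 = Pi.single i 1 := rfl

theorem aff_vtx {k n : ℕ} (w : Fin k → Sx n) (i : Fin k) : aff w (vtx k i) = w i := by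
  apply Subtype.ext
  rw [aff_val, vtx_val]
  rw [Finset.sum_eq_single i]
  · simp
  · intro j _ hj
    simp [Pi.single_eq_of_ne hj]
  · simp

theorem aff_comp_vtx {k n : ℕ} (w : Fin k → Sx n) : (aff w) ∘ vtx k = w := by
  funext i
  exact aff_vtx w i

theorem aff_comp {j k n : ℕ} (w : Fin k → Sx n) (v : Fin j → Sx k) :
    (aff w).comp (aff v) = aff ((aff w) ∘ v) := by
  ext1 s
  apply Subtype.ext
  change (aff w (aff v s)).1 = _
  rw [aff_val, aff_val, aff_val]
  simp only [Function.comp_apply, aff_val, Finset.sum_apply, Pi.smul_apply, smul_eq_mul,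
    Finset.sum_smul, Finset.smul_sum, mul_smul]
  rw [Finset.sum_comm]

theorem aff_vtx_id (n : ℕ) : aff (vtx n) = ContinuousMap.id (Sx n) := by
  ext1 s
  apply Subtype.ext
  rw [aff_val]
  funext j
  rw [Finset.sum_apply, Finset.sum_eq_single j]
  · simp [vtx_val]
  · intro i _ hi
    simp [vtx_val, Pi.single_eq_of_ne hi.symm]
  · simp

/-- the barycentre of a tuple -/
noncomputable def bary (n : ℕ) (k : ℕ) (w : Fin (k + 1) → Sx n) : Sx n :=
  aff w stdSimplex.barycenter

theorem aff_bary {k n : ℕ} (w : Fin k → Sx n) (j : ℕ) (v : Fin (j + 1) → Sx k) :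
    aff w (bary k j v) = bary n j ((aff w) ∘ v) := by
  unfold bary
  rw [← aff_comp]
  rfl

/-! ### singular chains -/

variable {X Y : Type*} [TopologicalSpace X] [TopologicalSpace Y]

/-- singular simplices with `k` vertices -/
abbrev Sg (k : ℕ) (X : Type*) [TopologicalSpace X] := C(Sx k, X)

/-- singular chains modulo 2 -/
abbrev SCh (k : ℕ) (X : Type*) [TopologicalSpace X] := Sg k X →₀ ZMod 2

/-- affine chains to singular chains -/
noncomputable def push {k n : ℕ} (σ : Sg n X) : TCh k (Sx n) →ₗ[ZMod 2] SCh k X :=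
  Finsupp.linearCombination (ZMod 2) (fun w => Finsupp.single (σ.comp (aff w)) (1 : ZMod 2))

theorem push_single {k n : ℕ} (σ : Sg n X) (w : Fin k → Sx n) :
    push σ (Finsupp.single w 1) = Finsupp.single (σ.comp (aff w)) 1 := by
  simp [push]

theorem push_comp_aff {j k n : ℕ} (σ : Sg n X) (w : Fin k → Sx n) (c : TCh j (Sx k)) :
    push (σ.comp (aff w)) c = push σ (tmap j (aff w) c) := by
  have h : push (σ.comp (aff w)) = (push σ).comp (tmap j (aff w)) := by
    refine tch_ext fun v => ?_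
    simp only [LinearMap.comp_apply, push_single, tmap_single]
    congr 1
    rw [ContinuousMap.comp_assoc, aff_comp]
  exact LinearMap.congr_fun h c

theorem sch_ext {k : ℕ} {M : Type*} [AddCommMonoid M] [Module (ZMod 2) M]
    {f g : SCh k X →ₗ[ZMod 2] M}
    (h : ∀ w, f (Finsupp.single w 1) = g (Finsupp.single w 1)) : f = g := by
  ext w
  simpa using h w

theorem add_self_sch {k : ℕ} (c : SCh k X) : c + c = 0 := by
  ext w
  simpa using CharTwo.add_self_eq_zero (c w)

/-- the operator on singular chains defined by a natural operator on affine chains -/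
noncomputable def sop {k j : ℕ} (Φ : ∀ n, TCh k (Sx n) →ₗ[ZMod 2] TCh j (Sx n)) :
    SCh k X →ₗ[ZMod 2] SCh j X :=
  Finsupp.linearCombination (ZMod 2)
    (fun σ => push σ (Φ k (Finsupp.single (vtx k) 1)))

theorem sop_single {k j : ℕ} (Φ : ∀ n, TCh k (Sx n) →ₗ[ZMod 2] TCh j (Sx n)) (σ : Sg k X) :
    sop Φ (Finsupp.single σ 1) = push σ (Φ k (Finsupp.single (vtx k) 1)) := by
  simp [sop]

/-- naturality of an operator on affine chains -/
def Nat' {k j : ℕ} (Φ : ∀ n, TCh k (Sx n) →ₗ[ZMod 2] TCh j (Sx n)) : Prop :=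
  ∀ (m n : ℕ) (w : Fin m → Sx n) (c : TCh k (Sx m)),
    tmap j (aff w) (Φ m c) = Φ n (tmap k (aff w) c)

theorem sop_push {k j n : ℕ} (Φ : ∀ n, TCh k (Sx n) →ₗ[ZMod 2] TCh j (Sx n)) (hΦ : Nat' Φ)
    (σ : Sg n X) (c : TCh k (Sx n)) : sop Φ (push σ c) = push σ (Φ n c) := by
  have h : (sop Φ).comp (push σ) = (push σ).comp (Φ n) := by
    refine tch_ext fun v => ?_
    simp only [LinearMap.comp_apply, push_single, sop_single]
    rw [push_comp_aff, hΦ, tmap_single, aff_comp_vtx]
  exact LinearMap.congr_fun h c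

/-- boundary of singular chains -/
noncomputable def sbd (k : ℕ) (X : Type*) [TopologicalSpace X] :
    SCh (k + 1) X →ₗ[ZMod 2] SCh k X := sop (fun n => tbd k (Sx n))

/-- the faces -/
noncomputable def face {k : ℕ} (σ : Sg (k + 1) X) (j : Fin (k + 1)) : Sg k X :=
  σ.comp (aff (vtx (k + 1) ∘ j.succAbove))

theorem sbd_single {k : ℕ} (σ : Sg (k + 1) X) :
    sbd k X (Finsupp.single σ 1) = ∑ j, Finsupp.single (face σ j) 1 := by
  rw [sbd, sop_single, tbd_single, map_sum]
  simp only [push_single]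
  rfl

theorem nat_tbd (k : ℕ) : Nat' (fun n => tbd k (Sx n)) :=
  fun _ _ _ c => tmap_tbd k _ c

theorem sbd_push {k n : ℕ} (σ : Sg n X) (c : TCh (k + 1) (Sx n)) :
    sbd k X (push σ c) = push σ (tbd k (Sx n) c) := sop_push _ (nat_tbd k) σ c

theorem sbd_sbd (k : ℕ) (c : SCh (k + 2) X) : sbd k X (sbd (k + 1) X c) = 0 := by
  have h : (sbd k X).comp (sbd (k + 1) X) = 0 := by
    refine sch_ext fun σ => ?_
    simp only [LinearMap.comp_apply, LinearMap.zero_apply]
    have e : sbd (k + 1) X (Finsupp.single σ 1)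
        = push σ (tbd (k + 1) (Sx (k + 2)) (Finsupp.single (vtx (k + 2)) 1)) := sop_single _ σ
    rw [e, sbd_push, tbd_tbd, map_zero]
  exact LinearMap.congr_fun h c

/-- barycentric subdivision of affine chains -/
noncomputable def asd (k n : ℕ) : TCh k (Sx n) →ₗ[ZMod 2] TCh k (Sx n) := tsd (bary n) k

/-- the homotopy for affine chains -/
noncomputable def aht (k n : ℕ) : TCh k (Sx n) →ₗ[ZMod 2] TCh (k + 1) (Sx n) := tht (bary n) k

theorem nat_asd (k : ℕ) : Nat' (fun n => asd k n) := by
  intro m n w c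
  exact tmap_tsd (aff w) (fun j v => aff_bary w j v) k c

theorem nat_aht (k : ℕ) : Nat' (fun n => aht k n) := by
  intro m n w c
  exact tmap_tht (aff w) (fun j v => aff_bary w j v) k c

/-- iterated subdivision -/
noncomputable def asdp (m k n : ℕ) : TCh k (Sx n) →ₗ[ZMod 2] TCh k (Sx n) := (asd k n) ^ m

theorem asdp_zero (k n : ℕ) (c : TCh k (Sx n)) : asdp 0 k n c = c := by simp [asdp]

theorem asdp_succ (m k n : ℕ) (c : TCh k (Sx n)) : asdp (m + 1) k n c = asd k n (asdp m k n c) := by
  simp [asdp, pow_succ']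

theorem nat_asdp (m k : ℕ) : Nat' (fun n => asdp m k n) := by
  induction m with
  | zero => intro a b w c; simp [asdp]
  | succ m ih =>
    intro a b w c
    simp only [asdp_succ]
    rw [nat_asd k a b w, ih a b w c]

/-- the sum of the homotopies up to level `m` -/
noncomputable def ahtp (m k n : ℕ) : TCh k (Sx n) →ₗ[ZMod 2] TCh (k + 1) (Sx n) :=
  ∑ i ∈ Finset.range m, (aht k n).comp (asdp i k n)

theorem ahtp_apply (m k n : ℕ) (c : TCh k (Sx n)) :
    ahtp m k n c = ∑ i ∈ Finset.range m, aht k n (asdp i k n c) := by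
  simp [ahtp]

theorem nat_ahtp (m k : ℕ) : Nat' (fun n => ahtp m k n) := by
  intro a b w c
  simp only [ahtp_apply, map_sum]
  refine Finset.sum_congr rfl fun i _ => ?_
  rw [nat_aht k a b w, nat_asdp i k a b w c]

theorem tbd_asdp (m k n : ℕ) (c : TCh (k + 1) (Sx n)) :
    tbd k (Sx n) (asdp m (k + 1) n c) = asdp m k n (tbd k (Sx n) c) := by
  induction m with
  | zero => simp [asdp]
  | succ m ih => rw [asdp_succ, asdp_succ, asd, tbd_tsd, ih]; rfl

theorem tbd_ahtp (m k n : ℕ) (c : TCh (k + 1) (Sx n)) :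
    tbd (k + 1) (Sx n) (ahtp m (k + 1) n c) + ahtp m k n (tbd k (Sx n) c)
      = c + asdp m (k + 1) n c := by
  induction m with
  | zero => simp [ahtp_apply, asdp_zero, add_self_tch]
  | succ m ih =>
    rw [ahtp_apply, ahtp_apply, Finset.sum_range_succ, Finset.sum_range_succ, ← ahtp_apply,
      ← ahtp_apply, map_add, add_add_add_comm, ih, ← tbd_asdp, asdp_succ]
    have := tbd_tht (bary n) k (asdp m (k + 1) n c)
    have e : tbd (k + 1) (Sx n) (aht (k + 1) n (asdp m (k + 1) n c))
      + aht k n (tbd k (Sx n) (asdp m (k + 1) n c)) = asdp m (k + 1) n c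
        + asd (k + 1) n (asdp m (k + 1) n c) := this
    rw [e]
    have e2 : ∀ a b c : TCh (k + 1) (Sx n), a + b + (b + c) = a + c := by
      intro a b c
      rw [← add_assoc, add_assoc a b b, add_self_tch, add_zero]
    exact e2 _ _ _

end SingHom
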