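import Mathlib
import Pool.Agent.Lib.SingHom.Sing

/-!
# The small simplices theorem modulo 2

`X` a pseudometric space, `ε > 0`: there are operators `rho`, `hot` on the singular chains of `X`
with `rho = 1 + ∂ hot + hot ∂`, `rho` has values in the chains of `ε`-small simplices, and
`rho = 1`, `hot = 0` on `ε`-small simplices.
-/

namespace SingHom

open Finset

/-- mesh of a tuple -/
def Mesh {k n : ℕ} (δ : ℝ) (w : Fin k → Sx n) : Prop := ∀ i j, dist (w i) (w j) ≤ δ

theorem aff_mem_ball {k n : ℕ} (w : Fin k → Sx n) (s : Sx k) (z : Fin n → ℝ) (r : ℝ)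
    (h : ∀ i, dist (w i).1 z ≤ r) : dist (aff w s).1 z ≤ r := by
  rw [aff_val]
  exact (convex_closedBall z r).sum_mem (fun i _ => s.2.1 i) s.2.2
    (fun i _ => by simpa using h i)

theorem dist_aff_le {k n : ℕ} {δ : ℝ} {w : Fin k → Sx n} (h : Mesh δ w) (s t : Sx k) :
    dist (aff w s) (aff w t) ≤ δ := by
  refine aff_mem_ball w s _ δ fun i => ?_
  rw [dist_comm]
  refine aff_mem_ball w t _ δ fun j => ?_
  exact h j i

theorem mesh_comp {k n : ℕ} {δ : ℝ} {w : Fin k → Sx n} (h : Mesh δ w) {j : ℕ} (f : Fin j → Fin k) :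
    Mesh δ (w ∘ f) := fun _ _ => h _ _

theorem range_aff_subset {j k n : ℕ} {w : Fin k → Sx n} {v : Fin j → Sx n}
    (h : ∀ i, v i ∈ Set.range (aff w)) : Set.range (aff v) ⊆ Set.range (aff w) := by
  choose u hu using h
  have : v = (aff w) ∘ u := by
    funext i
    exact (hu i).symm
  rw [this, ← aff_comp]
  rintro _ ⟨s, rfl⟩
  exact ⟨aff u s, rfl⟩

theorem dist_bary_le {k n : ℕ} {δ : ℝ} {w : Fin (k + 1) → Sx n} (h : Mesh δ w) (l : Fin (k + 1)) :
    dist (bary n k w) (w l) ≤ ((k : ℝ) / (k + 1)) * δ := by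
  have h0 : (bary n k w).1 - (w l).1
      = ∑ i ∈ Finset.univ.erase l, ((k + 1 : ℝ))⁻¹ • ((w i).1 - (w l).1) := by
    have h1 : (bary n k w).1 = ∑ i : Fin (k + 1), ((k + 1 : ℝ))⁻¹ • (w i).1 := by
      unfold bary
      rw [aff_val]
      simp
    have h2 : (w l).1 = ∑ i : Fin (k + 1), ((k + 1 : ℝ))⁻¹ • (w l).1 := by
      rw [Finset.sum_const, Finset.card_univ, Fintype.card_fin, ← Nat.cast_smul_eq_nsmul ℝ,
        smul_smul]
      have : ((k + 1 : ℕ) : ℝ) * ((k : ℝ) + 1)⁻¹ = 1 := by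
        push_cast
        field_simp
      rw [this, one_smul]
    have h3 : (bary n k w).1 - (w l).1
        = ∑ i : Fin (k + 1), ((k + 1 : ℝ))⁻¹ • ((w i).1 - (w l).1) := by
      conv_lhs => rw [h1, h2]
      rw [← Finset.sum_sub_distrib]
      exact Finset.sum_congr rfl fun i _ => (smul_sub _ _ _).symm
    rw [h3, ← Finset.add_sum_erase _ _ (Finset.mem_univ l)]
    simp
  change dist (bary n k w).1 (w l).1 ≤ _
  rw [dist_eq_norm, h0]
  refine (norm_sum_le _ _).trans ?_
  have h4 : ∀ i ∈ Finset.univ.erase l, ‖((k + 1 : ℝ))⁻¹ • ((w i).1 - (w l).1)‖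
      ≤ ((k + 1 : ℝ))⁻¹ * δ := by
    intro i _
    rw [norm_smul]
    have : ‖((k + 1 : ℝ))⁻¹‖ = ((k + 1 : ℝ))⁻¹ := by
      rw [Real.norm_of_nonneg]
      positivity
    rw [this]
    refine mul_le_mul_of_nonneg_left ?_ (by positivity)
    rw [← dist_eq_norm]
    exact h i l
  refine (Finset.sum_le_sum h4).trans (le_of_eq ?_)
  rw [Finset.sum_const, Finset.card_erase_of_mem (Finset.mem_univ l), Finset.card_univ,
    Fintype.card_fin, nsmul_eq_mul]
  simp only [Nat.add_sub_cancel]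
  field_simp

/-- the contraction factor for `n` vertices -/
noncomputable def th (n : ℕ) : ℝ := ((n : ℝ) - 1) / n

theorem th_zero : th 0 = 0 := by simp [th]

theorem th_succ (k : ℕ) : th (k + 1) = (k : ℝ) / (k + 1) := by simp [th]

theorem th_nonneg (n : ℕ) : 0 ≤ th n := by
  cases n with
  | zero => simp [th_zero]
  | succ k => rw [th_succ]; positivity

theorem th_lt_one (n : ℕ) : th n < 1 := by
  cases n with
  | zero => simp [th_zero]
  | succ k => rw [th_succ, div_lt_one (by positivity)]; linarith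

theorem th_le_succ (n : ℕ) : th n ≤ th (n + 1) := by
  cases n with
  | zero => rw [th_zero]; exact th_nonneg _
  | succ k =>
    rw [th_succ, th_succ, div_le_div_iff₀ (by positivity) (by positivity)]
    push_cast
    nlinarith

abbrev supp' {α : Type*} (P : Set α) : Submodule (ZMod 2) (α →₀ ZMod 2) :=
  Finsupp.supported (ZMod 2) (ZMod 2) P

theorem single_mem_supp {α : Type*} {P : Set α} {a : α} (h : a ∈ P) :
    Finsupp.single a (1 : ZMod 2) ∈ supp' P :=
  Finsupp.single_mem_supported _ _ h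

/-- a linear map into a module, evaluated on a chain supported in `P` -/
theorem map_mem_of_supp {α M : Type*} [AddCommMonoid M] [Module (ZMod 2) M] {P : Set α}
    {N : Submodule (ZMod 2) M} (f : (α →₀ ZMod 2) →ₗ[ZMod 2] M)
    (h : ∀ a ∈ P, f (Finsupp.single a 1) ∈ N) {c : α →₀ ZMod 2} (hc : c ∈ supp' P) : f c ∈ N := by
  have : supp' P ≤ N.comap f := by
    rw [supp', Finsupp.supported_eq_span_single, Submodule.span_le]
    rintro _ ⟨a, ha, rfl⟩
    exact h a ha
  exact this hc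

/-- the tuples with entries in `S` of mesh at most `δ` -/
def MS {k n : ℕ} (S : Set (Sx n)) (δ : ℝ) : Set (Fin k → Sx n) :=
  {v | (∀ i, v i ∈ S) ∧ Mesh δ v}

theorem MS_mono {k n : ℕ} {S T : Set (Sx n)} {δ δ' : ℝ} (h : S ⊆ T) (h' : δ ≤ δ') :
    (MS S δ : Set (Fin k → Sx n)) ⊆ MS T δ' :=
  fun _ hv => ⟨fun i => h (hv.1 i), fun i j => (hv.2 i j).trans h'⟩

theorem mem_range_aff {k n : ℕ} (w : Fin k → Sx n) (i : Fin k) : w i ∈ Set.range (aff w) :=
  ⟨vtx k i, aff_vtx w i⟩

theorem bary_mem {k n : ℕ} (w : Fin (k + 1) → Sx n) : bary n k w ∈ Set.range (aff w) := ⟨_, rfl⟩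

theorem asd_mem (k n : ℕ) {δ : ℝ} (hδ : 0 ≤ δ) (w : Fin k → Sx n) (hw : Mesh δ w) :
    asd k n (Finsupp.single w 1) ∈ supp' (MS (Set.range (aff w)) (th k * δ)) := by
  induction k with
  | zero =>
    refine single_mem_supp ⟨fun i => i.elim0, fun i => i.elim0⟩
  | succ k ih =>
    have e : asd (k + 1) n (Finsupp.single w 1)
        = tcone k (bary n k w) (asd k n (tbd k (Sx n) (Finsupp.single w 1))) :=
      tsd_succ_single (bary n) k w
    rw [e, tbd_single, map_sum, map_sum]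
    refine Submodule.sum_mem _ fun j _ => ?_
    have ih' := ih (w ∘ j.succAbove) (mesh_comp hw _)
    refine map_mem_of_supp _ ?_ ih'
    rintro v ⟨hv1, hv2⟩
    rw [tcone_single]
    have hv3 : ∀ i, v i ∈ Set.range (aff w) := by
      intro i
      exact range_aff_subset (fun l => mem_range_aff w (j.succAbove l)) (hv1 i)
    have hb : ∀ i, dist (bary n k w) (v i) ≤ th (k + 1) * δ := by
      intro i
      obtain ⟨s, hs⟩ := hv3 i
      rw [← hs, dist_comm]
      refine aff_mem_ball w s _ _ fun l => ?_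
      rw [th_succ]
      have := dist_bary_le hw l
      rw [dist_comm] at this
      exact this
    have hm : th k * δ ≤ th (k + 1) * δ := mul_le_mul_of_nonneg_right (th_le_succ k) hδ
    refine single_mem_supp ⟨fun i => ?_, fun i i' => ?_⟩
    · refine Fin.cases ?_ (fun i => ?_) i
      · simpa using bary_mem w
      · simpa using hv3 i
    · refine Fin.cases ?_ (fun i => ?_) i
      · refine Fin.cases ?_ (fun i' => ?_) i'
        · simp only [Fin.cons_zero, dist_self]
          exact mul_nonneg (th_nonneg _) hδ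
        · simpa using hb i'
      · refine Fin.cases ?_ (fun i' => ?_) i'
        · simp only [Fin.cons_zero, Fin.cons_succ]
          rw [dist_comm]
          exact hb i
        · simp only [Fin.cons_succ]
          exact (hv2 i i').trans hm

theorem asdp_mem (m k n : ℕ) {δ : ℝ} (hδ : 0 ≤ δ) (w : Fin k → Sx n) (hw : Mesh δ w) :
    asdp m k n (Finsupp.single w 1) ∈ supp' (MS (Set.range (aff w)) (th k ^ m * δ)) := by
  induction m with
  | zero =>
    rw [asdp_zero]
    exact single_mem_supp ⟨fun i => mem_range_aff w i, by simpa using hw⟩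
  | succ m ih =>
    rw [asdp_succ]
    refine map_mem_of_supp _ ?_ ih
    rintro v ⟨hv1, hv2⟩
    have h := asd_mem k n (mul_nonneg (pow_nonneg (th_nonneg k) m) hδ) v hv2
    refine Finsupp.supported_mono (MS_mono (range_aff_subset hv1) (le_of_eq ?_)) h
    ring

theorem mesh_one {k n : ℕ} (w : Fin k → Sx n) : Mesh 1 w := by
  intro i j
  have h1 := diam_stdSimplex_le (ι := Fin n)
  have h2 := Metric.dist_le_diam_of_mem (bounded_stdSimplex (ι := Fin n)) (w i).2 (w j).2
  exact h2.trans h1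

/-! ### small singular simplices -/

variable {X : Type*} [PseudoMetricSpace X]

/-- `ε`-small singular simplices -/
def Sml (ε : ℝ) {n : ℕ} (σ : Sg n X) : Prop := ∀ s t, dist (σ s) (σ t) < ε

/-- `ε`-small chains -/
abbrev SmlC (ε : ℝ) (n : ℕ) (X : Type*) [PseudoMetricSpace X] : Submodule (ZMod 2) (SCh n X) :=
  supp' {σ : Sg n X | Sml ε σ}

/-- modulus of continuity -/
def Md (ε : ℝ) {n : ℕ} (σ : Sg n X) (δ : ℝ) : Prop := ∀ s t, dist s t ≤ δ → dist (σ s) (σ t) < ε

theorem Md.mono {ε : ℝ} {n : ℕ} {σ : Sg n X} {δ δ' : ℝ} (h : Md ε σ δ) (h' : δ' ≤ δ) :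
    Md ε σ δ' := fun s t hst => h s t (hst.trans h')

theorem push_small {ε : ℝ} {k n : ℕ} {σ : Sg n X} (h : Sml ε σ) (c : TCh k (Sx n)) :
    push σ c ∈ SmlC ε k X := by
  have hc : c ∈ supp' (Set.univ : Set (Fin k → Sx n)) := by simp [Finsupp.supported_univ]
  refine map_mem_of_supp _ ?_ hc
  intro w _
  rw [push_single]
  exact single_mem_supp fun s t => h _ _

theorem push_op_small {ε δ : ℝ} {j k n : ℕ} {σ : Sg n X} (h : Md ε σ δ)
    (Φ : ∀ n, TCh k (Sx n) →ₗ[ZMod 2] TCh j (Sx n)) (hΦ : Nat' Φ)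
    {S : Set (Sx n)} {c : TCh k (Sx n)} (hc : c ∈ supp' (MS S δ)) :
    push σ (Φ n c) ∈ SmlC ε j X := by
  refine map_mem_of_supp ((push σ).comp (Φ n)) ?_ hc
  rintro w ⟨-, hw⟩
  rw [LinearMap.comp_apply]
  have e : Φ n (Finsupp.single w 1) = tmap j (aff w) (Φ k (Finsupp.single (vtx k) 1)) := by
    rw [hΦ, tmap_single, aff_comp_vtx]
  rw [e, ← push_comp_aff]
  refine push_small ?_ _
  intro s t
  exact h _ _ (dist_aff_le hw s t)

theorem push_mesh_small {ε δ : ℝ} {k n : ℕ} {σ : Sg n X} (h : Md ε σ δ)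
    {S : Set (Sx n)} {c : TCh k (Sx n)} (hc : c ∈ supp' (MS S δ)) :
    push σ c ∈ SmlC ε k X :=
  push_op_small h (fun _ => LinearMap.id) (fun _ _ _ _ => rfl) hc

theorem dist_face_le {k : ℕ} (j : Fin (k + 1)) (s t : Sx k) :
    dist (aff (vtx (k + 1) ∘ j.succAbove) s) (aff (vtx (k + 1) ∘ j.succAbove) t) ≤ dist s t := by
  have hv : ∀ (u : Sx k) (i : Fin k), (aff (vtx (k + 1) ∘ j.succAbove) u).1 (j.succAbove i)
      = u.1 i := by
    intro u i
    rw [aff_val, Finset.sum_apply, Finset.sum_eq_single i]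
    · simp [vtx_val]
    · intro l _ hl
      have : j.succAbove i ≠ j.succAbove l := fun h => hl (Fin.succAbove_right_injective h).symm
      simp [vtx_val, Pi.single_eq_of_ne this]
    · simp
  have hv0 : ∀ (u : Sx k), (aff (vtx (k + 1) ∘ j.succAbove) u).1 j = 0 := by
    intro u
    rw [aff_val, Finset.sum_apply]
    refine Finset.sum_eq_zero fun l _ => ?_
    have : j ≠ j.succAbove l := (Fin.succAbove_ne j l).symm
    simp [vtx_val]
  change dist (aff (vtx (k + 1) ∘ j.succAbove) s).1 (aff (vtx (k + 1) ∘ j.succAbove) t).1 ≤ _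
  rw [dist_pi_le_iff dist_nonneg]
  intro i
  by_cases hi : i = j
  · subst hi
    rw [hv0, hv0, dist_self]
    exact dist_nonneg
  · obtain ⟨l, rfl⟩ := Fin.exists_succAbove_eq hi
    rw [hv, hv]
    exact dist_le_pi_dist s.1 t.1 l

theorem Md.face {ε : ℝ} {k : ℕ} {σ : Sg (k + 1) X} {δ : ℝ} (h : Md ε σ δ) (j : Fin (k + 1)) :
    Md ε (face σ j) δ := fun s t hst => h _ _ ((dist_face_le j s t).trans hst)

theorem exists_lvl {ε : ℝ} (hε : 0 < ε) {n : ℕ} (σ : Sg n X) : ∃ m, Md ε σ (th n ^ m) := by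
  have hu : UniformContinuous σ := CompactSpace.uniformContinuous_of_continuous σ.continuous
  obtain ⟨δ, hδ, h⟩ := Metric.uniformContinuous_iff.1 hu ε hε
  obtain ⟨m, hm⟩ := exists_pow_lt_of_lt_one hδ (th_lt_one n)
  exact ⟨m, fun s t hst => h (lt_of_le_of_lt hst hm)⟩

open Classical in
/-- the number of subdivisions needed -/
noncomputable def lvl (ε : ℝ) {n : ℕ} (σ : Sg n X) : ℕ :=
  if h : ∃ m, Md ε σ (th n ^ m) then Nat.find h else 0

theorem lvl_spec {ε : ℝ} (hε : 0 < ε) {n : ℕ} (σ : Sg n X) : Md ε σ (th n ^ lvl ε σ) := by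
  classical
  have h := exists_lvl hε σ
  rw [lvl, dif_pos h]
  exact Nat.find_spec h

theorem lvl_le {ε : ℝ} (hε : 0 < ε) {n : ℕ} (σ : Sg n X) {m : ℕ} (h : Md ε σ (th n ^ m)) :
    lvl ε σ ≤ m := by
  classical
  rw [lvl, dif_pos (exists_lvl hε σ)]
  exact Nat.find_min' _ h

theorem lvl_face_le {ε : ℝ} (hε : 0 < ε) {k : ℕ} (σ : Sg (k + 1) X) (j : Fin (k + 1)) :
    lvl ε (face σ j) ≤ lvl ε σ := by
  refine lvl_le hε _ ?_
  exact ((lvl_spec hε σ).face j).mono (pow_le_pow_left₀ (th_nonneg k) (th_le_succ k) _)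

theorem lvl_small {ε : ℝ} (hε : 0 < ε) {n : ℕ} {σ : Sg n X} (h : Sml ε σ) : lvl ε σ = 0 := by
  have := lvl_le hε σ (m := 0) (fun s t _ => h s t)
  omega

theorem Sml.face {ε : ℝ} {k : ℕ} {σ : Sg (k + 1) X} (h : Sml ε σ) (j : Fin (k + 1)) :
    Sml ε (SingHom.face σ j) := fun _ _ => h _ _

/-- the homotopy operator -/
noncomputable def hot (ε : ℝ) (n : ℕ) (X : Type*) [PseudoMetricSpace X] :
    SCh n X →ₗ[ZMod 2] SCh (n + 1) X :=
  Finsupp.linearCombination (ZMod 2)
    (fun σ => push σ (ahtp (lvl ε σ) n n (Finsupp.single (vtx n) 1)))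

/-- the subdivision operator -/
noncomputable def rho (ε : ℝ) : ∀ (n : ℕ) (X : Type*) [PseudoMetricSpace X],
    SCh n X →ₗ[ZMod 2] SCh n X
  | 0, _, _ => LinearMap.id
  | n + 1, X, _ => LinearMap.id + (sbd (n + 1) X).comp (hot ε (n + 1) X)
      + (hot ε n X).comp (sbd n X)

theorem hot_single (ε : ℝ) {n : ℕ} (σ : Sg n X) :
    hot ε n X (Finsupp.single σ 1) = push σ (ahtp (lvl ε σ) n n (Finsupp.single (vtx n) 1)) := by
  simp [hot]

theorem rho_succ (ε : ℝ) (n : ℕ) (c : SCh (n + 1) X) :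
    rho ε (n + 1) X c = c + sbd (n + 1) X (hot ε (n + 1) X c) + hot ε n X (sbd n X c) := rfl

theorem hot_zero (ε : ℝ) : hot ε 0 X = 0 := by
  refine sch_ext fun σ => ?_
  rw [hot_single, ahtp_apply]
  have : aht 0 0 = 0 := tht_zero (bary 0)
  simp [this]

theorem sbd_rho (ε : ℝ) (n : ℕ) (c : SCh (n + 1) X) :
    sbd n X (rho ε (n + 1) X c) = rho ε n X (sbd n X c) := by
  cases n with
  | zero =>
    rw [rho_succ, map_add, map_add, sbd_sbd, hot_zero]
    simp [rho]
  | succ n =>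
    rw [rho_succ, map_add, map_add, sbd_sbd, rho_succ, sbd_sbd, map_zero, add_zero, add_zero]

theorem hot_of_small {ε : ℝ} (hε : 0 < ε) {n : ℕ} {σ : Sg n X} (h : Sml ε σ) :
    hot ε n X (Finsupp.single σ 1) = 0 := by
  rw [hot_single, lvl_small hε h, ahtp_apply]
  simp

theorem rho_of_small {ε : ℝ} (hε : 0 < ε) {n : ℕ} {σ : Sg n X} (h : Sml ε σ) :
    rho ε n X (Finsupp.single σ 1) = Finsupp.single σ 1 := by
  cases n with
  | zero => rfl
  | succ n =>
    rw [rho_succ, hot_of_small hε h, map_zero, add_zero, sbd_single, map_sum,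
      Finset.sum_eq_zero, add_zero]
    intro j _
    exact hot_of_small hε (h.face j)

theorem sum_range_add_sum_range {M : Type*} [AddCommGroup M] (h2 : ∀ x : M, x + x = 0)
    (f : ℕ → M) {a b : ℕ} (hab : a ≤ b) :
    ∑ i ∈ Finset.range b, f i + ∑ i ∈ Finset.range a, f i = ∑ i ∈ Finset.Ico a b, f i := by
  rw [← Finset.sum_range_add_sum_Ico f hab, add_right_comm, h2, zero_add]

theorem rho_small {ε : ℝ} (hε : 0 < ε) {n : ℕ} (σ : Sg (n + 1) X) :
    rho ε (n + 1) X (Finsupp.single σ 1) ∈ SmlC ε (n + 1) X := by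
  set m := lvl ε σ with hm
  set e : TCh (n + 1) (Sx (n + 1)) := Finsupp.single (vtx (n + 1)) 1 with he
  have h1 : sbd (n + 1) X (hot ε (n + 1) X (Finsupp.single σ 1))
      = push σ (e + asdp m (n + 1) (n + 1) e) + push σ (ahtp m n (n + 1) (tbd n _ e)) := by
    rw [hot_single, sbd_push, ← map_add]
    congr 1
    have e3 : ∀ a b c : TCh (n + 1) (Sx (n + 1)), a + b = c → a = c + b := by
      intro a b c h
      rw [← h, add_assoc a b b, add_self_tch b, add_zero]
    exact e3 _ _ _ (tbd_ahtp m n (n + 1) e)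
  have h2 : push σ e = Finsupp.single σ 1 := by
    rw [he, push_single, aff_vtx_id]
    rfl
  have h3 : push σ (ahtp m n (n + 1) (tbd n _ e))
      = ∑ j, push (face σ j) (ahtp m n n (Finsupp.single (vtx n) 1)) := by
    rw [he, tbd_single, map_sum, map_sum]
    refine Finset.sum_congr rfl fun j _ => ?_
    rw [face, push_comp_aff, nat_ahtp, tmap_single, aff_comp_vtx]
  have h4 : hot ε n X (sbd n X (Finsupp.single σ 1))
      = ∑ j, push (face σ j) (ahtp (lvl ε (face σ j)) n n (Finsupp.single (vtx n) 1)) := by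
    rw [sbd_single, map_sum]
    exact Finset.sum_congr rfl fun j _ => hot_single ε _
  have h5 : rho ε (n + 1) X (Finsupp.single σ 1)
      = push σ (asdp m (n + 1) (n + 1) e)
        + ∑ j, (push (face σ j) (ahtp m n n (Finsupp.single (vtx n) 1))
          + push (face σ j) (ahtp (lvl ε (face σ j)) n n (Finsupp.single (vtx n) 1))) := by
    rw [rho_succ, h1, h3, h4, map_add, h2, Finset.sum_add_distrib]
    have : ∀ a b c d : SCh (n + 1) X, a + (a + b + c) + d = b + (c + d) := by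
      intro a b c d
      rw [← add_assoc, ← add_assoc, add_self_sch, zero_add, add_assoc]
    exact this _ _ _ _
  rw [h5]
  refine Submodule.add_mem _ ?_ (Submodule.sum_mem _ fun j _ => ?_)
  · have h6 := asdp_mem m (n + 1) (n + 1) zero_le_one (vtx (n + 1)) (mesh_one _)
    refine push_mesh_small (δ := th (n + 1) ^ m * 1) ?_ h6
    rw [mul_one]
    exact lvl_spec hε σ
  · rw [← map_add, ahtp_apply, ahtp_apply,
      sum_range_add_sum_range (fun x => add_self_tch x) _ (lvl_face_le hε σ j), map_sum]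
    refine Submodule.sum_mem _ fun i hi => ?_
    have h6 := asdp_mem i n n zero_le_one (vtx n) (mesh_one _)
    refine push_op_small (δ := th n ^ i * 1) ?_ (fun n' => aht n n') (nat_aht n) h6
    rw [mul_one]
    refine (lvl_spec hε (face σ j)).mono ?_
    exact pow_le_pow_of_le_one (th_nonneg n) (th_lt_one n).le (Finset.mem_Ico.1 hi).1

end SingHom
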