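import Mathlib
import Pool.Agent.Lib.SingHom.Small
import Pool.Agent.Lib.MP_f7aa1b_gt.ASC.Basic

/-!
# Comparison of Alexander-Spanier cohomology and singular cohomology modulo 2

`M` a compact subset of a normed space which is a retract of a neighbourhood.
-/

set_option autoImplicit false
set_option linter.unusedSectionVars false

namespace SingHom

open Finset ASC

section cochains

variable {X : Type*} [PseudoMetricSpace X]

/-- singular cochains modulo 2 (`k` vertices) -/
abbrev SCo (k : ℕ) (X : Type*) [TopologicalSpace X] := Sg k X → ZMod 2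

/-- coboundary of singular cochains -/
noncomputable def sdl {k : ℕ} (α : SCo k X) : SCo (k + 1) X := fun σ => ∑ j, α (face σ j)

/-- evaluation on chains -/
noncomputable def lin {k : ℕ} (α : SCo k X) : SCh k X →ₗ[ZMod 2] ZMod 2 :=
  Finsupp.linearCombination (ZMod 2) α

theorem lin_single {k : ℕ} (α : SCo k X) (σ : Sg k X) : lin α (Finsupp.single σ 1) = α σ := by
  simp [lin]

theorem lin_sbd {k : ℕ} (α : SCo k X) (c : SCh (k + 1) X) :
    lin α (sbd k X c) = lin (sdl α) c := by
  have h : (lin α).comp (sbd k X) = lin (sdl α) := by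
    refine sch_ext fun σ => ?_
    rw [LinearMap.comp_apply, sbd_single, map_sum, lin_single]
    exact Finset.sum_congr rfl fun j _ => lin_single α _
  exact LinearMap.congr_fun h c

theorem lin_eq_of_small {ε : ℝ} {k : ℕ} {α β : SCo k X} (h : ∀ σ, Sml ε σ → α σ = β σ)
    {c : SCh k X} (hc : c ∈ SmlC ε k X) : lin α c = lin β c := by
  have h1 : (lin α - lin β) c ∈ (⊥ : Submodule (ZMod 2) (ZMod 2)) := by
    refine map_mem_of_supp _ ?_ hc
    intro σ hσ
    rw [LinearMap.sub_apply, lin_single, lin_single, h σ hσ, sub_self]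
    exact Submodule.zero_mem _
  rw [Submodule.mem_bot, LinearMap.sub_apply, sub_eq_zero] at h1
  exact h1

/-- a cocycle on small simplices extends to a cocycle -/
theorem extend_cocycle {ε : ℝ} (hε : 0 < ε) {n : ℕ} (α : SCo (n + 1) X)
    (h : ∀ σ : Sg (n + 2) X, Sml ε σ → sdl α σ = 0) :
    ∃ α' : SCo (n + 1) X, sdl α' = 0 ∧ ∀ σ, Sml ε σ → α' σ = α σ := by
  refine ⟨fun σ => lin α (rho ε (n + 1) X (Finsupp.single σ 1)), ?_, ?_⟩
  · funext σ
    have e : ∀ c : SCh (n + 1) X, lin (fun σ => lin α (rho ε (n + 1) X (Finsupp.single σ 1))) c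
        = lin α (rho ε (n + 1) X c) := by
      intro c
      have : lin (fun σ => lin α (rho ε (n + 1) X (Finsupp.single σ 1)))
          = (lin α).comp (rho ε (n + 1) X) := by
        refine sch_ext fun σ => ?_
        rw [lin_single]
        rfl
      rw [this]
      rfl
    rw [← lin_single (sdl _) σ, ← lin_sbd, e, ← sbd_rho, lin_sbd]
    have h2 : lin (sdl α) (rho ε (n + 2) X (Finsupp.single σ 1))
        = lin (0 : SCo (n + 2) X) (rho ε (n + 2) X (Finsupp.single σ 1)) :=
      lin_eq_of_small (fun τ hτ => h τ hτ) (rho_small hε σ)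
    rw [h2]
    have h3 : lin (0 : SCo (n + 2) X) = 0 := by
      refine sch_ext fun σ => ?_
      rw [lin_single]
      rfl
    rw [h3]
    rfl
  · intro σ hσ
    change lin α (rho ε (n + 1) X (Finsupp.single σ 1)) = α σ
    rw [rho_of_small hε hσ, lin_single]

/-- a cocycle which is a coboundary on small simplices is a coboundary -/
theorem cobound_of_small {ε : ℝ} (hε : 0 < ε) {n : ℕ} (α : SCo (n + 2) X) (hα : sdl α = 0)
    (β : SCo (n + 1) X) (h : ∀ σ, Sml ε σ → α σ = sdl β σ) :
    ∃ β' : SCo (n + 1) X, α = sdl β' := by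
  refine ⟨fun τ => lin β (rho ε (n + 1) X (Finsupp.single τ 1))
    + lin α (hot ε (n + 1) X (Finsupp.single τ 1)), ?_⟩
  funext σ
  have e : ∀ c : SCh (n + 1) X, lin (fun τ => lin β (rho ε (n + 1) X (Finsupp.single τ 1))
      + lin α (hot ε (n + 1) X (Finsupp.single τ 1))) c
      = lin β (rho ε (n + 1) X c) + lin α (hot ε (n + 1) X c) := by
    intro c
    have : lin (fun τ => lin β (rho ε (n + 1) X (Finsupp.single τ 1))
      + lin α (hot ε (n + 1) X (Finsupp.single τ 1)))
        = (lin β).comp (rho ε (n + 1) X) + (lin α).comp (hot ε (n + 1) X) := by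
      refine sch_ext fun σ => ?_
      rw [lin_single]
      rfl
    rw [this]
    rfl
  have h3 : lin (0 : SCo (n + 3) X) = 0 := by
    refine sch_ext fun σ => ?_
    rw [lin_single]
    rfl
  rw [← lin_single (sdl _) σ, ← lin_sbd, e, ← sbd_rho, lin_sbd]
  have h2 : lin (sdl β) (rho ε (n + 2) X (Finsupp.single σ 1))
      = lin α (rho ε (n + 2) X (Finsupp.single σ 1)) :=
    (lin_eq_of_small (fun τ hτ => h τ hτ) (rho_small hε σ)).symm
  rw [h2, rho_succ, map_add, map_add, lin_sbd α, hα, h3, lin_single, LinearMap.zero_apply,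
    add_zero, add_assoc, CharTwo.add_self_eq_zero, add_zero]

/-- singular coboundaries -/
def SCob : ∀ {n : ℕ}, SCo n X → Prop
  | 0, α => α = 0
  | 1, α => α = 0
  | _ + 2, α => ∃ β, α = sdl β

end cochains

/-! ### naturality of the prism operator -/

theorem prism_nat {X X' Y Y' : Type*} (φ ψ : Y → X) (φ' ψ' : Y' → X') (g : X' → X) (h : Y' → Y)
    (hφ : ∀ y, φ (h y) = g (φ' y)) (hψ : ∀ y, ψ (h y) = g (ψ' y)) :
    ∀ (n : ℕ) (F : Coch X (n + 1)) (y : Fin n → Y'),
      prism φ ψ n F (fun i => h (y i)) = prism φ' ψ' n (pb g F) y := by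
  intro n
  induction n with
  | zero => intro F y; rfl
  | succ n ih =>
    intro F y
    simp only [prism]
    have h1 : (Fin.cons (φ (h (y 0))) (fun i => ψ (h (y i))) : Fin (n + 2) → X)
        = fun i => g ((Fin.cons (φ' (y 0)) (fun i => ψ' (y i)) : Fin (n + 2) → X') i) := by
      funext i
      refine Fin.cases ?_ (fun i => ?_) i
      · simp [hφ]
      · simp [hψ]
    have h2 : (fun w : Fin (n + 1) → X' => pb g F (Fin.cons (φ' (y 0)) w : Fin (n + 2) → X'))
        = pb g (fun w => F (Fin.cons (φ (h (y 0))) w)) := by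
      funext w
      unfold pb
      congr 1
      funext i
      refine Fin.cases ?_ (fun i => ?_) i
      · simp [hφ]
      · simp
    rw [h1, h2, ← ih]
    rfl

/-! ### straight simplices -/

variable {E : Type*} [NormedAddCommGroup E] [NormedSpace ℝ E]

/-- convex combinations -/
noncomputable def comb {k : ℕ} (x : Fin k → E) (s : Sx k) : E := ∑ i, s.1 i • x i

theorem continuous_comb {k : ℕ} (x : Fin k → E) : Continuous (comb x) := by
  refine continuous_finsetSum _ (fun i _ => ?_)
  exact ((continuous_apply i).comp continuous_subtype_val).smul continuous_const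

theorem comb_aff {j k : ℕ} (x : Fin k → E) (w : Fin j → Sx k) (s : Sx j) :
    comb x (aff w s) = comb (fun i => comb x (w i)) s := by
  unfold comb
  simp only [aff_val, Finset.sum_apply, Pi.smul_apply, smul_eq_mul, Finset.sum_smul,
    Finset.smul_sum, mul_smul]
  rw [Finset.sum_comm]

theorem comb_vtx {k : ℕ} (x : Fin k → E) (i : Fin k) : comb x (vtx k i) = x i := by
  unfold comb
  rw [vtx_val, Finset.sum_eq_single i]
  · simp
  · intro j _ hj
    simp [Pi.single_eq_of_ne hj]
  · simp

theorem comb_mem {k : ℕ} {C : Set E} (hC : Convex ℝ C) {x : Fin k → E} (h : ∀ i, x i ∈ C)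
    (s : Sx k) : comb x s ∈ C :=
  hC.sum_mem (fun i _ => s.2.1 i) s.2.2 (fun i _ => h i)

/-- `r` is a retraction of the open set `U` onto `M` -/
structure Retr (M U : Set E) (r : E → E) : Prop where
  isOpen : IsOpen U
  sub : M ⊆ U
  cont : ContinuousOn r U
  maps : Set.MapsTo r U M
  idM : ∀ x ∈ M, r x = x

variable {M U : Set E} {r : E → E}

/-- simplices of `M` made from maps into `U` -/
noncomputable def mkS (R : Retr M U r) {k : ℕ} (g : Sx k → E) (hg : Continuous g)
    (hU : ∀ s, g s ∈ U) : Sg k M where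
  toFun s := ⟨r (g s), R.maps (hU s)⟩
  continuous_toFun := by
    refine Continuous.subtype_mk ?_ _
    exact R.cont.comp_continuous hg hU

theorem mkS_congr (R : Retr M U r) {k : ℕ} {g g' : Sx k → E} {hg : Continuous g}
    {hg' : Continuous g'} {hU : ∀ s, g s ∈ U} {hU' : ∀ s, g' s ∈ U} (h : ∀ s, g s = g' s) :
    mkS R g hg hU = mkS R g' hg' hU' := by
  ext1 s
  apply Subtype.ext
  change r (g s) = r (g' s)
  rw [h]

theorem face_mkS (R : Retr M U r) {k : ℕ} (g : Sx (k + 1) → E) (hg : Continuous g)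
    (hU : ∀ s, g s ∈ U) (j : Fin (k + 1)) :
    face (mkS R g hg hU) j = mkS R (fun s => g (aff (vtx (k + 1) ∘ j.succAbove) s))
      (hg.comp (aff _).continuous) (fun _ => hU _) := rfl

/-- all convex combinations are in `U` -/
def Good (U : Set E) {k : ℕ} (x : Fin k → E) : Prop := ∀ s, comb x s ∈ U

/-- straight simplices -/
noncomputable def str (R : Retr M U r) {k : ℕ} (x : Fin k → E) (h : Good U x) : Sg k M :=
  mkS R (comb x) (continuous_comb x) h

theorem Good.face {k : ℕ} {x : Fin (k + 1) → E} (h : Good U x) (j : Fin (k + 1)) :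
    Good U (fun i => x (j.succAbove i)) := by
  intro s
  have : comb (fun i => x (j.succAbove i)) s = comb x (aff (vtx (k + 1) ∘ j.succAbove) s) := by
    rw [comb_aff]
    simp only [Function.comp_apply, comb_vtx]
  rw [this]
  exact h _

theorem face_str (R : Retr M U r) {k : ℕ} (x : Fin (k + 1) → E) (h : Good U x)
    (j : Fin (k + 1)) : face (str R x h) j = str R (fun i => x (j.succAbove i)) (h.face j) := by
  refine (face_mkS R (comb x) (continuous_comb x) h j).trans ?_
  refine mkS_congr R fun s => ?_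
  rw [comb_aff]
  simp only [Function.comp_apply, comb_vtx]

/-- vertices of a singular simplex of `M` -/
noncomputable def vert {k : ℕ} (σ : Sg k M) : Fin k → E := fun i => (σ (vtx k i) : E)

theorem vert_face {k : ℕ} (σ : Sg (k + 1) M) (j : Fin (k + 1)) :
    vert (face σ j) = fun i => vert σ (j.succAbove i) := by
  funext i
  unfold vert
  change ((σ (aff (vtx (k + 1) ∘ j.succAbove) (vtx k i)) : M) : E) = _
  rw [aff_vtx]
  rfl

theorem vert_str (R : Retr M U r) {k : ℕ} (x : Fin k → E) (h : Good U x)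
    (hx : ∀ i, x i ∈ M) : vert (str R x h) = x := by
  funext i
  change r (comb x (vtx k i)) = x i
  rw [comb_vtx, R.idM _ (hx i)]

/-- from singular to Alexander-Spanier cochains -/
noncomputable def Th (R : Retr M U r) {k : ℕ} (α : SCo k M) : Coch E k := by
  classical
  exact fun x => if h : Good U x then α (str R x h) else 0

theorem Th_of_good (R : Retr M U r) {k : ℕ} (α : SCo k M) {x : Fin k → E} (h : Good U x) :
    Th R α x = α (str R x h) := by
  classical
  unfold Th
  rw [dif_pos h]

/-- from Alexander-Spanier to singular cochains -/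
noncomputable def Xi {k : ℕ} (f : Coch E k) : SCo k M := fun σ => f (vert σ)

theorem dl_Th (R : Retr M U r) {k : ℕ} (α : SCo k M) {x : Fin (k + 1) → E} (h : Good U x) :
    dl (Th R α) x = Th R (sdl α) x := by
  rw [Th_of_good R _ h]
  unfold dl sdl
  refine Finset.sum_congr rfl fun j _ => ?_
  rw [Th_of_good R α (h.face j), face_str]

theorem sdl_Xi {k : ℕ} (f : Coch E k) (σ : Sg (k + 1) M) : sdl (Xi f) σ = dl f (vert σ) := by
  unfold sdl Xi dl
  refine Finset.sum_congr rfl fun j _ => ?_
  rw [vert_face]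

/-! ### the straight line homotopy -/

/-- the homotopy between a simplex and its straight simplex stays in `U` -/
def GoodS (U : Set E) {k : ℕ} (σ : Sg k M) : Prop :=
  ∀ (s : Sx k) (t : ℝ), 0 ≤ t → t ≤ 1 → (1 - t) • (σ s : E) + t • comb (vert σ) s ∈ U

theorem GoodS.good {k : ℕ} {σ : Sg k M} (h : GoodS U σ) : Good U (vert σ) := by
  intro s
  have := h s 1 zero_le_one le_rfl
  simpa using this

theorem comb_vert_face {k : ℕ} (σ : Sg (k + 1) M) (j : Fin (k + 1)) (s : Sx k) :
    comb (vert (face σ j)) s = comb (vert σ) (aff (vtx (k + 1) ∘ j.succAbove) s) := by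
  rw [comb_aff, vert_face]
  simp only [Function.comp_apply, comb_vtx]

theorem GoodS.face {k : ℕ} {σ : Sg (k + 1) M} (h : GoodS U σ) (j : Fin (k + 1)) :
    GoodS U (SingHom.face σ j) := by
  intro s t h0 h1
  rw [comb_vert_face]
  exact h _ t h0 h1

/-- time coordinate of an affine simplex in `Sx n × [0,1]` -/
noncomputable def tau {k : ℕ} (t : Fin k → Set.Icc (0 : ℝ) 1) (s : Sx k) : ℝ :=
  ∑ i, s.1 i * (t i : ℝ)

theorem tau_nonneg {k : ℕ} (t : Fin k → Set.Icc (0 : ℝ) 1) (s : Sx k) : 0 ≤ tau t s :=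
  Finset.sum_nonneg fun i _ => mul_nonneg (s.2.1 i) (t i).2.1

theorem tau_le_one {k : ℕ} (t : Fin k → Set.Icc (0 : ℝ) 1) (s : Sx k) : tau t s ≤ 1 := by
  rw [← s.2.2]
  exact Finset.sum_le_sum fun i _ => mul_le_of_le_one_right (s.2.1 i) (t i).2.2

theorem continuous_tau {k : ℕ} (t : Fin k → Set.Icc (0 : ℝ) 1) : Continuous (tau t) := by
  refine continuous_finsetSum _ (fun i _ => ?_)
  exact ((continuous_apply i).comp continuous_subtype_val).mul continuous_const

theorem tau_aff {j k : ℕ} (t : Fin k → Set.Icc (0 : ℝ) 1) (f : Fin j → Fin k) (s : Sx j) :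
    tau t (aff (vtx k ∘ f) s) = tau (t ∘ f) s := by
  unfold tau
  simp only [aff_val, Finset.sum_apply, Pi.smul_apply, smul_eq_mul, Function.comp_apply, vtx_val,
    Finset.sum_mul]
  rw [Finset.sum_comm]
  refine Finset.sum_congr rfl fun i _ => ?_
  rw [Finset.sum_eq_single (f i)]
  · simp
  · intro l _ hl
    simp [Pi.single_eq_of_ne hl]
  · simp

/-- the simplices of the homotopy -/
noncomputable def HS (R : Retr M U r) {n : ℕ} (σ : Sg n M) (hσ : GoodS U σ) {k : ℕ}
    (w : Fin k → Sx n × Set.Icc (0 : ℝ) 1) : Sg k M :=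
  mkS R (fun s => (1 - tau (fun i => (w i).2) s) • (σ (aff (fun i => (w i).1) s) : E)
      + tau (fun i => (w i).2) s • comb (vert σ) (aff (fun i => (w i).1) s))
    (by
      have h1 := continuous_tau (fun i => (w i).2)
      have h2 : Continuous (aff (fun i => (w i).1)) := (aff _).continuous
      have h3 : Continuous fun s => (σ (aff (fun i => (w i).1) s) : E) :=
        continuous_subtype_val.comp (σ.continuous.comp h2)
      have h4 : Continuous fun s => comb (vert σ) (aff (fun i => (w i).1) s) :=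
        (continuous_comb _).comp h2
      exact ((continuous_const.sub h1).smul h3).add (h1.smul h4))
    (fun s => hσ _ _ (tau_nonneg _ s) (tau_le_one _ s))

theorem face_HS (R : Retr M U r) {n : ℕ} (σ : Sg n M) (hσ : GoodS U σ) {k : ℕ}
    (w : Fin (k + 1) → Sx n × Set.Icc (0 : ℝ) 1) (j : Fin (k + 1)) :
    face (HS R σ hσ w) j = HS R σ hσ (fun i => w (j.succAbove i)) := by
  rw [HS, face_mkS]
  refine mkS_congr R fun s => ?_
  have h1 : aff (fun i => (w i).1) (aff (vtx (k + 1) ∘ j.succAbove) s)
      = aff (fun i => (w (j.succAbove i)).1) s := by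
    have := congrArg (fun f : C(Sx k, Sx n) => f s)
      (aff_comp (fun i => (w i).1) (vtx (k + 1) ∘ j.succAbove))
    refine Eq.trans this ?_
    congr 2
    funext i
    simp only [Function.comp_apply, aff_vtx]
  rw [h1, tau_aff]
  rfl

/-- start of the homotopy -/
noncomputable def ph {n : ℕ} (s : Sx n) : Sx n × Set.Icc (0 : ℝ) 1 := (s, ⟨0, by simp⟩)

/-- end of the homotopy -/
noncomputable def ps {n : ℕ} (s : Sx n) : Sx n × Set.Icc (0 : ℝ) 1 := (s, ⟨1, by simp⟩)

theorem HS_ph (R : Retr M U r) {n : ℕ} (σ : Sg n M) (hσ : GoodS U σ) :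
    HS R σ hσ (fun i => ph (vtx n i)) = σ := by
  ext1 s
  apply Subtype.ext
  change r ((1 - tau (fun i => (ph (vtx n i)).2) s)
    • (σ (aff (fun i => (ph (vtx n i)).1) s) : E)
      + tau (fun i => (ph (vtx n i)).2) s • comb (vert σ) (aff (fun i => (ph (vtx n i)).1) s)) = _
  have h1 : tau (fun i => (ph (vtx n i)).2) s = 0 := by simp [tau, ph]
  have h2 : aff (fun i => (ph (vtx n i)).1) s = s := by
    change aff (vtx n) s = s
    rw [aff_vtx_id]
    rfl
  rw [h1, h2]
  simp only [sub_zero, one_smul, zero_smul, add_zero]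
  exact R.idM _ (σ s).2

theorem HS_ps (R : Retr M U r) {n : ℕ} (σ : Sg n M) (hσ : GoodS U σ) :
    HS R σ hσ (fun i => ps (vtx n i)) = str R (vert σ) hσ.good := by
  ext1 s
  apply Subtype.ext
  change r ((1 - tau (fun i => (ps (vtx n i)).2) s)
    • (σ (aff (fun i => (ps (vtx n i)).1) s) : E)
      + tau (fun i => (ps (vtx n i)).2) s • comb (vert σ) (aff (fun i => (ps (vtx n i)).1) s))
      = r (comb (vert σ) s)
  have h1 : tau (fun i => (ps (vtx n i)).2) s = 1 := by
    simp only [tau, ps, mul_one]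
    exact s.2.2
  have h2 : aff (fun i => (ps (vtx n i)).1) s = s := by
    change aff (vtx n) s = s
    rw [aff_vtx_id]
    rfl
  rw [h1, h2]
  simp

/-- the cochain homotopy -/
noncomputable def PP (R : Retr M U r) {n : ℕ} (α : SCo (n + 1) M) : SCo n M := by
  classical
  exact fun σ => if h : GoodS U σ then
    prism ph ps n (fun w => α (HS R σ h w)) (fun i => vtx n i) else 0

theorem PP_of_good (R : Retr M U r) {n : ℕ} (α : SCo (n + 1) M) {σ : Sg n M} (h : GoodS U σ) :
    PP R α σ = prism ph ps n (fun w => α (HS R σ h w)) (fun i => vtx n i) := by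
  classical
  unfold PP
  rw [dif_pos h]

theorem HS_face' (R : Retr M U r) {n : ℕ} (σ : Sg (n + 1) M) (hσ : GoodS U σ) (j : Fin (n + 1))
    {k : ℕ} (w : Fin k → Sx n × Set.Icc (0 : ℝ) 1) :
    HS R (face σ j) (hσ.face j) w
      = HS R σ hσ (fun i => (aff (vtx (n + 1) ∘ j.succAbove) (w i).1, (w i).2)) := by
  refine mkS_congr R fun s => ?_
  have h1 : aff (vtx (n + 1) ∘ j.succAbove) (aff (fun i => (w i).1) s)
      = aff (fun i => aff (vtx (n + 1) ∘ j.succAbove) (w i).1) s :=
    congrArg (fun f : C(Sx k, Sx (n + 1)) => f s)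
      (aff_comp (vtx (n + 1) ∘ j.succAbove) (fun i => (w i).1))
  rw [comb_vert_face]
  change _ • ((σ (aff (vtx (n + 1) ∘ j.succAbove) (aff (fun i => (w i).1) s)) : M) : E) + _ = _
  rw [h1]

theorem PP_identity (R : Retr M U r) {n : ℕ} (α : SCo (n + 1) M) (σ : Sg (n + 1) M)
    (hσ : GoodS U σ) :
    sdl (PP R α) σ + PP R (sdl α) σ = α σ + α (str R (vert σ) hσ.good) := by
  have key := prism_identity (ph (n := n + 1)) ps (fun w => α (HS R σ hσ w))
    (fun i => vtx (n + 1) i)
  have h1 : pb ph (fun w => α (HS R σ hσ w)) (fun i => vtx (n + 1) i) = α σ := by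
    change α (HS R σ hσ (fun i => ph (vtx (n + 1) i))) = α σ
    rw [HS_ph]
  have h2 : pb ps (fun w => α (HS R σ hσ w)) (fun i => vtx (n + 1) i)
      = α (str R (vert σ) hσ.good) := by
    change α (HS R σ hσ (fun i => ps (vtx (n + 1) i))) = _
    rw [HS_ps]
  have h3 : dl (fun w => α (HS R σ hσ w)) = fun w => sdl α (HS R σ hσ w) := by
    funext w
    unfold dl sdl
    refine Finset.sum_congr rfl fun j _ => ?_
    rw [face_HS]
  have h4 : dl (prism ph ps n (fun w => α (HS R σ hσ w))) (fun i => vtx (n + 1) i)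
      = sdl (PP R α) σ := by
    unfold dl sdl
    refine Finset.sum_congr rfl fun j _ => ?_
    rw [PP_of_good R α (hσ.face j)]
    have e := prism_nat (ph (n := n + 1)) ps (ph (n := n)) ps
      (fun p => (aff (vtx (n + 1) ∘ j.succAbove) p.1, p.2)) (aff (vtx (n + 1) ∘ j.succAbove))
      (fun y => rfl) (fun y => rfl) n (fun w => α (HS R σ hσ w)) (fun i => vtx n i)
    have e2 : (fun i => aff (vtx (n + 1) ∘ j.succAbove) (vtx n i))
        = fun i => vtx (n + 1) (j.succAbove i) := by
      funext i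
      rw [aff_vtx]
      rfl
    rw [e2] at e
    rw [e]
    congr 1
    funext w
    unfold pb
    rw [HS_face']
  rw [← h1, ← h2, ← key, h4, h3, PP_of_good R _ hσ]

end SingHom
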