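import Mathlib
import Pool.Agent.Lib.SingHom.Comp

/-!
# Alexander-Spanier cohomology = singular cohomology modulo 2 for compact neighbourhood retracts
-/

set_option autoImplicit false
set_option linter.unusedSectionVars false

namespace SingHom

open Finset ASC

variable {E : Type*} [NormedAddCommGroup E] [NormedSpace ℝ E] {M U : Set E} {r : E → E}

theorem exists_good (hM : IsCompact M) (R : Retr M U r) :
    ∃ δ > 0, (∀ (k : ℕ) (x : Fin (k + 1) → E), Sm M δ x → Good U x) ∧
      ∀ (k : ℕ) (σ : Sg (k + 1) M), Sml δ σ → GoodS U σ := by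
  obtain ⟨δ, hδ, h⟩ := hM.exists_thickening_subset_open R.isOpen R.sub
  have hb : ∀ x ∈ M, Metric.ball x δ ⊆ U := fun x hx y hy =>
    h (Metric.mem_thickening_iff.2 ⟨x, hx, hy⟩)
  refine ⟨δ, hδ, fun k x hx s => ?_, fun k σ hσ s t h0 h1 => ?_⟩
  · refine hb (x 0) (hx.1 0) (comb_mem (convex_ball _ _) (fun i => ?_) s)
    exact hx.2 i 0
  · have h2 : ∀ u : Sx (k + 1), (σ u : E) ∈ Metric.ball (σ (vtx (k + 1) 0) : E) δ :=
      fun u => hσ u _
    refine hb _ (σ (vtx (k + 1) 0)).2 ?_
    refine (convex_ball (σ (vtx (k + 1) 0) : E) δ) (h2 s)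
      (comb_mem (convex_ball _ _) (fun i => h2 _) s) (by linarith) h0 (by ring)

theorem exists_small (hM : IsCompact M) (R : Retr M U r) {ε : ℝ} (hε : 0 < ε) :
    ∃ δ > 0, ∀ (k : ℕ) (x : Fin (k + 1) → E), Sm M δ x → ∀ h : Good U x,
      Sml ε (str R x h) := by
  have hc : ∀ x ∈ M, ContinuousAt r x := fun x hx =>
    R.cont.continuousAt (R.isOpen.mem_nhds (R.sub hx))
  have hu := hM.uniformContinuousAt_of_continuousAt r hc
    (Metric.dist_mem_uniformity (half_pos hε))
  obtain ⟨δ, hδ, h⟩ := Metric.mem_uniformity_dist.1 hu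
  refine ⟨δ, hδ, fun k x hx hg s t => ?_⟩
  have h1 : ∀ u, dist (r (x 0)) (r (comb x u)) < ε / 2 := by
    intro u
    have h2 : comb x u ∈ Metric.ball (x 0) δ :=
      comb_mem (convex_ball _ _) (fun i => hx.2 i 0) u
    rw [Metric.mem_ball, dist_comm] at h2
    exact h h2 (hx.1 0)
  have h2 : dist (r (comb x s)) (r (comb x t)) ≤
      dist (r (x 0)) (r (comb x s)) + dist (r (x 0)) (r (comb x t)) := dist_triangle_left _ _ _
  have h3 := h1 s
  have h4 := h1 t
  change dist (r (comb x s)) (r (comb x t)) < ε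
  linarith

theorem sm_vert {ε : ℝ} {k : ℕ} {σ : Sg k M} (h : Sml ε σ) : Sm M ε (vert σ) :=
  ⟨fun i => (σ (vtx k i)).2, fun i j => h _ _⟩

theorem Th_zero (R : Retr M U r) {k : ℕ} : Th R (0 : SCo k M) = 0 := by
  classical
  funext x
  unfold Th
  split_ifs <;> rfl

theorem PP_zero (R : Retr M U r) {n : ℕ} : PP R (0 : SCo (n + 1) M) = 0 := by
  classical
  funext σ
  unfold PP
  split_ifs with h
  · exact prism_eq_zero ph ps (fun _ => True) _ _ (fun _ => ⟨trivial, trivial⟩) (fun _ _ => rfl)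
  · rfl

theorem Th_coc (hM : IsCompact M) (R : Retr M U r) {n : ℕ} {α : SCo (n + 1) M}
    (h : sdl α = 0) : Coc M ∅ (Th R α) := by
  obtain ⟨δ, hδ, hg, -⟩ := exists_good hM R
  refine ⟨Van.empty _, δ, hδ, fun x hx => ?_⟩
  rw [dl_Th R α (hg _ x hx), h, Th_zero]
  rfl

theorem Th_cob (hM : IsCompact M) (R : Retr M U r) {n : ℕ} {α : SCo (n + 1) M}
    (h : SCob α) : Cob M ∅ (Th R α) := by
  cases n with
  | zero =>
    have h0 : α = 0 := h
    rw [h0, Th_zero]
    exact Cob.zero _ _
  | succ n =>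
    obtain ⟨β, hβ⟩ := h
    obtain ⟨δ, hδ, hg, -⟩ := exists_good hM R
    refine ⟨Th R β, Van.empty _, δ, hδ, fun x hx => ?_⟩
    rw [Pi.add_apply, dl_Th R β (hg _ x hx), hβ, CharTwo.add_self_eq_zero]

theorem Th_surj (hM : IsCompact M) (R : Retr M U r) {n : ℕ} {f : Coch E (n + 1)}
    (h : Coc M ∅ f) : ∃ α : SCo (n + 1) M, sdl α = 0 ∧ Van M (Th R α + f) := by
  obtain ⟨ε, hε, hf⟩ := h.cl
  obtain ⟨α, hα, hs⟩ := extend_cocycle hε (Xi f) (fun σ hσ => by
    rw [sdl_Xi]
    exact hf _ (sm_vert hσ))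
  obtain ⟨δ, hδ, hg, -⟩ := exists_good hM R
  obtain ⟨δ', hδ', hg'⟩ := exists_small hM R hε
  refine ⟨α, hα, min δ δ', lt_min hδ hδ', fun x hx => ?_⟩
  have hx1 := hg _ x (hx.mono subset_rfl (min_le_left _ _))
  have hx2 := hg' _ x (hx.mono subset_rfl (min_le_right _ _)) hx1
  rw [Pi.add_apply, Th_of_good R α hx1, hs _ hx2]
  have e : Xi f (str R x hx1) = f x := by
    unfold Xi
    rw [vert_str R x hx1 hx.1]
  rw [e, CharTwo.add_self_eq_zero]

theorem Th_inj (hM : IsCompact M) (R : Retr M U r) {n : ℕ} {α : SCo (n + 1) M}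
    (h : sdl α = 0) (hc : Cob M ∅ (Th R α)) : SCob α := by
  obtain ⟨δ, hδ, hg, hgs⟩ := exists_good hM R
  cases n with
  | zero =>
    obtain ⟨g, hg0, hv⟩ := hc
    rw [van_zero_iff] at hg0
    subst hg0
    rw [dl_zero, add_zero] at hv
    obtain ⟨ε, hε, hv⟩ := hv
    change α = 0
    funext σ
    have h1 : ∀ s : Sx 1, s = vtx 1 0 := fun s => Subsingleton.elim _ _
    have h2 : ∀ ε > 0, Sml ε σ := by
      intro ε hε s t
      rw [h1 s, h1 t, dist_self]
      exact hε
    have h3 := hg 0 (vert σ) (sm_vert (h2 δ hδ))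
    have h4 := hv (vert σ) (sm_vert (h2 ε hε))
    rw [Th_of_good R α h3] at h4
    have h5 : str R (vert σ) h3 = σ := by
      ext1 s
      apply Subtype.ext
      change r (comb (vert σ) s) = _
      rw [h1 s, comb_vtx]
      exact R.idM _ (σ (vtx 1 0)).2
    rw [h5] at h4
    exact h4
  | succ n =>
    obtain ⟨g, -, ε, hε, hv⟩ := hc
    refine cobound_of_small (lt_min hδ hε) α h (PP R α + Xi g) (fun σ hσ => ?_)
    have h1 : Sml δ σ := fun s t => (hσ s t).trans_le (min_le_left _ _)
    have h2 : Sml ε σ := fun s t => (hσ s t).trans_le (min_le_right _ _)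
    have h3 := hgs _ σ h1
    have h4 := hv (vert σ) (sm_vert h2)
    rw [Pi.add_apply, Th_of_good R α h3.good, ← sdl_Xi] at h4
    have h5 := PP_identity R α σ h3
    rw [h, PP_zero] at h5
    have h6 : sdl (PP R α + Xi g) σ = sdl (PP R α) σ + sdl (Xi g) σ := by
      unfold sdl
      rw [← Finset.sum_add_distrib]
      rfl
    rw [h6]
    have key : ∀ a b c d : ZMod 2, b + c = 0 → a + 0 = d + b → d = a + c := by decide
    exact key _ _ _ _ h4 h5

/-! ### the modules -/

/-- singular cocycles -/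
noncomputable def ZS (n : ℕ) (X : Type*) [PseudoMetricSpace X] : Submodule (ZMod 2) (SCo n X) where
  carrier := {α | sdl α = 0}
  zero_mem' := by
    funext σ
    simp [sdl]
  add_mem' {α β} ha hb := by
    have h6 : sdl (α + β) = sdl α + sdl β := by
      funext σ
      simp only [sdl, Pi.add_apply, Finset.sum_add_distrib]
    change sdl (α + β) = 0
    rw [h6, show sdl α = 0 from ha, show sdl β = 0 from hb, add_zero]
  smul_mem' c α ha := by
    have h6 : sdl (c • α) = c • sdl α := by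
      funext σ
      simp only [sdl, Pi.smul_apply, Finset.smul_sum]
    change sdl (c • α) = 0
    rw [h6, show sdl α = 0 from ha, smul_zero]

theorem SCob.zero {X : Type*} [PseudoMetricSpace X] : ∀ {n : ℕ}, SCob (0 : SCo n X)
  | 0 => rfl
  | 1 => rfl
  | n + 2 => ⟨0, by funext σ; simp [sdl]⟩

/-- singular coboundaries -/
noncomputable def BS (n : ℕ) (X : Type*) [PseudoMetricSpace X] : Submodule (ZMod 2) (SCo n X) where
  carrier := {α | SCob α}
  zero_mem' := SCob.zero
  add_mem' := by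
    match n with
    | 0 =>
      intro α β ha hb
      have ha' : α = 0 := ha
      have hb' : β = 0 := hb
      subst ha' hb'
      change SCob (0 + 0 : SCo 0 X)
      rw [add_zero]
      exact SCob.zero
    | 1 =>
      intro α β ha hb
      have ha' : α = 0 := ha
      have hb' : β = 0 := hb
      subst ha' hb'
      change SCob (0 + 0 : SCo 1 X)
      rw [add_zero]
      exact SCob.zero
    | n + 2 =>
      rintro α β ⟨a, rfl⟩ ⟨b, rfl⟩
      refine ⟨a + b, ?_⟩
      funext σ
      simp only [sdl, Pi.add_apply, Finset.sum_add_distrib]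
  smul_mem' := by
    match n with
    | 0 =>
      intro c α ha
      have ha' : α = 0 := ha
      subst ha'
      change SCob (c • 0 : SCo 0 X)
      rw [smul_zero]
      exact SCob.zero
    | 1 =>
      intro c α ha
      have ha' : α = 0 := ha
      subst ha'
      change SCob (c • 0 : SCo 1 X)
      rw [smul_zero]
      exact SCob.zero
    | n + 2 =>
      rintro c α ⟨a, rfl⟩
      refine ⟨c • a, ?_⟩
      funext σ
      simp only [sdl, Pi.smul_apply, Finset.smul_sum]

theorem van_smul {X : Type*} [PseudoMetricSpace X] {S : Set X} {n : ℕ} {f : Coch X n} (c : ZMod 2)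
    (h : Van S f) : Van S (c • f) := by
  obtain ⟨ε, hε, h⟩ := h
  refine ⟨ε, hε, fun x hx => ?_⟩
  rw [Pi.smul_apply, h x hx, smul_zero]

theorem dl_smul' {X : Type*} {n : ℕ} (c : ZMod 2) (f : Coch X n) : dl (c • f) = c • dl f := by
  funext x
  simp only [dl, Pi.smul_apply, Finset.smul_sum]

/-- Alexander-Spanier cocycles -/
noncomputable def ZA (n : ℕ) {X : Type*} [PseudoMetricSpace X] (S S' : Set X) :
    Submodule (ZMod 2) (Coch X n) where
  carrier := {f | Coc S S' f}
  zero_mem' := Coc.zero _ _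
  add_mem' ha hb := Coc.add ha hb
  smul_mem' c f hf := ⟨van_smul c hf.van, by rw [dl_smul']; exact van_smul c hf.cl⟩

/-- Alexander-Spanier coboundaries -/
noncomputable def BA (n : ℕ) {X : Type*} [PseudoMetricSpace X] (S S' : Set X) :
    Submodule (ZMod 2) (Coch X n) where
  carrier := {f | Cob S S' f}
  zero_mem' := Cob.zero _ _
  add_mem' ha hb := Cob.add ha hb
  smul_mem' := by
    match n with
    | 0 => exact fun c f hf => van_smul c hf
    | n + 1 =>
      rintro c f ⟨g, hg, h⟩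
      refine ⟨c • g, van_smul c hg, ?_⟩
      rw [dl_smul', ← smul_add]
      exact van_smul c h

/-- singular cohomology (`n` vertices, degree `n - 1`) -/
abbrev HS' (n : ℕ) (X : Type*) [PseudoMetricSpace X] := ZS n X ⧸ (BS n X).submoduleOf (ZS n X)

/-- Alexander-Spanier cohomology (`n` points, degree `n - 1`) -/
abbrev HA (n : ℕ) {X : Type*} [PseudoMetricSpace X] (S S' : Set X) :=
  ZA n S S' ⧸ (BA n S S').submoduleOf (ZA n S S')

/-- `Th` as a linear map -/
noncomputable def ThL (R : Retr M U r) (k : ℕ) : SCo k M →ₗ[ZMod 2] Coch E k where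
  toFun := Th R
  map_add' α β := by
    classical
    funext x
    simp only [Th, Pi.add_apply]
    split_ifs <;> simp
  map_smul' c α := by
    classical
    funext x
    simp only [Th, Pi.smul_apply, RingHom.id_apply]
    split_ifs <;> simp

/-- the comparison map on cocycles -/
noncomputable def ThZ (hM : IsCompact M) (R : Retr M U r) (n : ℕ) :
    ZS (n + 1) M →ₗ[ZMod 2] ZA (n + 1) M ∅ :=
  LinearMap.restrict (ThL R (n + 1)) (fun _ h => Th_coc hM R h)

/-- the comparison isomorphism -/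
noncomputable def thEquiv (hM : IsCompact M) (R : Retr M U r) (n : ℕ) :
    HS' (n + 1) M ≃ₗ[ZMod 2] HA (n + 1) M ∅ := by
  refine LinearEquiv.ofBijective
    (Submodule.mapQ _ _ (ThZ hM R n) ?_) ⟨?_, ?_⟩
  · rintro ⟨α, hα⟩ h
    exact Th_cob hM R h
  · rw [← LinearMap.ker_eq_bot, LinearMap.ker_eq_bot']
    intro a ha
    obtain ⟨⟨α, hα⟩, rfl⟩ := Submodule.Quotient.mk_surjective _ a
    rw [Submodule.mapQ_apply, Submodule.Quotient.mk_eq_zero] at ha
    rw [Submodule.Quotient.mk_eq_zero]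
    exact Th_inj hM R hα ha
  · intro b
    obtain ⟨⟨f, hf⟩, rfl⟩ := Submodule.Quotient.mk_surjective _ b
    obtain ⟨α, hα, hv⟩ := Th_surj hM R hf
    refine ⟨Submodule.Quotient.mk ⟨α, hα⟩, ?_⟩
    rw [Submodule.mapQ_apply, Submodule.Quotient.eq]
    change Cob M ∅ (Th R α - f)
    have e : Th R α - f = Th R α + f := by
      funext x
      exact CharTwo.sub_eq_add _ _
    rw [e]
    exact Cob.of_van hv

theorem finrank_HS_eq (hM : IsCompact M) (R : Retr M U r) (n : ℕ) :
    Module.finrank (ZMod 2) (HS' (n + 1) M) = Module.finrank (ZMod 2) (HA (n + 1) M ∅) :=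
  (thEquiv hM R n).finrank_eq

end SingHom
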