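import Mathlib
import Pool.Agent.Lib.SingHom.CompTwo

/-!
# Identification with the singular homology of Mathlib
-/

set_option autoImplicit false
set_option linter.unusedSectionVars false

namespace SingHom

open Finset ASC CategoryTheory

section la

variable {k : Type*} [Field k] {V₁ V₂ V₃ : Type*} [AddCommGroup V₁] [Module k V₁]
  [AddCommGroup V₂] [Module k V₂] [AddCommGroup V₃] [Module k V₃]

/-- a functional on the homology from a dual cocycle -/
noncomputable def dualHom (f : V₁ →ₗ[k] V₂) (g : V₂ →ₗ[k] V₃)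
    (f' : V₁ →ₗ[k] LinearMap.ker g) (hf' : ∀ x, (f' x : V₂) = f x)
    (φ : V₂ →ₗ[k] k) (hφ : φ ∘ₗ f = 0) : (LinearMap.ker g ⧸ LinearMap.range f') →ₗ[k] k :=
  (LinearMap.range f').liftQ (φ ∘ₗ (LinearMap.ker g).subtype) (by
    rintro _ ⟨x, rfl⟩
    have h2 := LinearMap.congr_fun hφ x
    rw [LinearMap.mem_ker]
    simp only [LinearMap.comp_apply, Submodule.subtype_apply, hf']
    exact h2)

theorem dualHom_mk (f : V₁ →ₗ[k] V₂) (g : V₂ →ₗ[k] V₃)
    (f' : V₁ →ₗ[k] LinearMap.ker g) (hf' : ∀ x, (f' x : V₂) = f x)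
    (φ : V₂ →ₗ[k] k) (hφ : φ ∘ₗ f = 0) (x : LinearMap.ker g) :
    dualHom f g f' hf' φ hφ (Submodule.Quotient.mk x) = φ x := rfl

/-- duality for homology over a field -/
theorem hom_dual_equiv (f : V₁ →ₗ[k] V₂) (g : V₂ →ₗ[k] V₃)
    (f' : V₁ →ₗ[k] LinearMap.ker g) (hf' : ∀ x, (f' x : V₂) = f x)
    {C : Type*} [AddCommGroup C] [Module k C] (e : (V₂ →ₗ[k] k) →ₗ[k] C)
    (he : Function.Bijective e) (Z B : Submodule k C) (hZ : ∀ φ, e φ ∈ Z ↔ φ ∘ₗ f = 0)
    (hB : ∀ φ, e φ ∈ B ↔ ∃ ψ : V₃ →ₗ[k] k, ψ ∘ₗ g = φ) :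
    Nonempty ((Z ⧸ B.submoduleOf Z) ≃ₗ[k]
      Module.Dual k (LinearMap.ker g ⧸ LinearMap.range f')) := by
  let E : (V₂ →ₗ[k] k) ≃ₗ[k] C := LinearEquiv.ofBijective e he
  have hE : ∀ z : C, e (E.symm z) = z := fun z => E.apply_symm_apply z
  have hz : ∀ z : Z, (E.symm z.1) ∘ₗ f = 0 := fun z => by
    rw [← hZ, hE]
    exact z.2
  let Φ : Z →ₗ[k] ((LinearMap.ker g ⧸ LinearMap.range f') →ₗ[k] k) :=
    { toFun := fun z => dualHom f g f' hf' (E.symm z.1) (hz z)
      map_add' := fun φ ψ => by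
        refine Submodule.linearMap_qext _ ?_
        ext x
        change E.symm (φ.1 + ψ.1) x = E.symm φ.1 x + E.symm ψ.1 x
        rw [map_add]
        rfl
      map_smul' := fun c φ => by
        refine Submodule.linearMap_qext _ ?_
        ext x
        change E.symm (c • φ.1) x = c • E.symm φ.1 x
        rw [map_smul]
        rfl }
  have hsurj : Function.Surjective Φ := by
    intro ψ
    obtain ⟨φ, hφ⟩ := LinearMap.exists_extend (ψ ∘ₗ (LinearMap.range f').mkQ)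
    have h1 : ∀ x : LinearMap.ker g, φ x = ψ (Submodule.Quotient.mk x) := fun x => by
      have := LinearMap.congr_fun hφ x
      simpa using this
    have h2 : φ ∘ₗ f = 0 := by
      ext x
      change φ (f x) = 0
      rw [← hf', h1]
      have : (Submodule.Quotient.mk (f' x) : LinearMap.ker g ⧸ LinearMap.range f') = 0 := by
        rw [Submodule.Quotient.mk_eq_zero]
        exact ⟨x, rfl⟩
      rw [this, map_zero]
    refine ⟨⟨e φ, (hZ φ).2 h2⟩, ?_⟩
    refine Submodule.linearMap_qext _ ?_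
    ext x
    change E.symm (e φ) x = _
    have : E.symm (e φ) = φ := E.symm_apply_apply φ
    rw [this]
    exact h1 x
  have hker : LinearMap.ker Φ = B.submoduleOf Z := by
    ext z
    rw [LinearMap.mem_ker]
    change _ ↔ z.1 ∈ B
    rw [← hE z.1, hB]
    have h3 := LinearMap.range_dualMap_eq_dualAnnihilator_ker g
    have h4 : E.symm z.1 ∈ LinearMap.range g.dualMap
      ↔ E.symm z.1 ∈ (LinearMap.ker g).dualAnnihilator := by rw [h3]
    rw [Submodule.mem_dualAnnihilator] at h4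
    have h5 : (∃ ψ : V₃ →ₗ[k] k, ψ ∘ₗ g = E.symm z.1) ↔ ∀ w ∈ LinearMap.ker g, E.symm z.1 w = 0 :=
      h4
    rw [h5]
    constructor
    · intro h x hx
      exact LinearMap.congr_fun h (Submodule.Quotient.mk ⟨x, hx⟩)
    · intro h
      refine Submodule.linearMap_qext _ ?_
      ext x
      exact h x x.2
  rw [← hker]
  exact ⟨Φ.quotKerEquivOfSurjective hsurj⟩

/-- duality for homology over a field: dimensions -/
theorem finrank_hom_dual (f : V₁ →ₗ[k] V₂) (g : V₂ →ₗ[k] V₃)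
    (f' : V₁ →ₗ[k] LinearMap.ker g) (hf' : ∀ x, (f' x : V₂) = f x)
    {C : Type*} [AddCommGroup C] [Module k C] (e : (V₂ →ₗ[k] k) →ₗ[k] C)
    (he : Function.Bijective e) (Z B : Submodule k C) (hZ : ∀ φ, e φ ∈ Z ↔ φ ∘ₗ f = 0)
    (hB : ∀ φ, e φ ∈ B ↔ ∃ ψ : V₃ →ₗ[k] k, ψ ∘ₗ g = φ) :
    Module.finrank k (LinearMap.ker g ⧸ LinearMap.range f')
      = Module.finrank k (Z ⧸ B.submoduleOf Z) ∧
    (Module.Finite k (Z ⧸ B.submoduleOf Z) →
      Module.Finite k (LinearMap.ker g ⧸ LinearMap.range f')) := by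
  obtain ⟨Φ⟩ := hom_dual_equiv f g f' hf' e he Z B hZ hB
  refine ⟨?_, fun h => ?_⟩
  · rw [← Subspace.dual_finrank_eq, Φ.finrank_eq]
  · have : Module.Finite k (Module.Dual k (LinearMap.ker g ⧸ LinearMap.range f')) :=
      Module.Finite.equiv Φ
    exact Module.finite_dual_iff k |>.1 this

end la

section mathlib

open AlgebraicTopology Opposite Simplicial

variable (Y : Type) [PseudoMetricSpace Y]

/-- coefficients -/
abbrev RR : ModuleCat.{0} (ZMod 2) := ModuleCat.of (ZMod 2) (ZMod 2)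

/-- the singular chain complex of Mathlib with coefficients `ZMod 2` -/
noncomputable abbrev KK : ChainComplex (ModuleCat.{0} (ZMod 2)) ℕ :=
  ((singularChainComplexFunctor (ModuleCat.{0} (ZMod 2))).obj RR).obj (TopCat.of Y)

/-- the singular simplex of Mathlib -/
noncomputable def xs {m : ℕ} (σ : Sg (m + 1) Y) : (TopCat.toSSet.obj (TopCat.of Y)) _⦋m⦌ :=
  (TopCat.toSSetObjEquiv (TopCat.of Y) (op ⦋m⦌)).symm σ

/-- the generator -/
noncomputable def gen {m : ℕ} (σ : Sg (m + 1) Y) : (KK Y).X m :=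
  (ModuleCat.Hom.hom (SSet.ιChainComplex (R := RR) (TopCat.toSSet.obj (TopCat.of Y)) (xs Y σ)))
    (1 : ZMod 2)

/-- from functionals to cochains -/
noncomputable def ev (m : ℕ) :
    ((KK Y).X m →ₗ[ZMod 2] ZMod 2) →ₗ[ZMod 2] SCo (m + 1) Y where
  toFun φ := fun σ => φ (gen Y σ)
  map_add' _ _ := rfl
  map_smul' _ _ := rfl

theorem ev_inj (m : ℕ) : Function.Injective (ev Y m) := by
  intro φ ψ h
  have h2 : ModuleCat.ofHom φ = ModuleCat.ofHom ψ := by
    refine SSet.chainComplex_hom_ext (X := TopCat.toSSet.obj (TopCat.of Y)) (R := RR) ?_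
    intro x
    ext
    have := congrFun h ((TopCat.toSSetObjEquiv (TopCat.of Y) (op ⦋m⦌)) x)
    have e : xs Y ((TopCat.toSSetObjEquiv (TopCat.of Y) (op ⦋m⦌)) x) = x :=
      Equiv.symm_apply_apply _ _
    change φ (gen Y _) = ψ (gen Y _) at this
    unfold gen at this
    rw [e] at this
    exact this
  exact congrArg ModuleCat.Hom.hom h2

theorem ev_surj (m : ℕ) : Function.Surjective (ev Y m) := by
  intro α
  let c : Limits.Cofan (fun (_ : (TopCat.toSSet.obj (TopCat.of Y)) _⦋m⦌) ↦ RR) :=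
    Limits.Cofan.mk RR (fun x =>
      ModuleCat.ofHom ((α ((TopCat.toSSetObjEquiv (TopCat.of Y) (op ⦋m⦌)) x)) • LinearMap.id))
  let φ := (SSet.isColimitChainComplexXCofan (TopCat.toSSet.obj (TopCat.of Y)) RR m).desc c
  refine ⟨ModuleCat.Hom.hom φ, ?_⟩
  funext σ
  change ModuleCat.Hom.hom φ (gen Y σ) = α σ
  have h := (SSet.isColimitChainComplexXCofan (TopCat.toSSet.obj (TopCat.of Y)) RR m).fac c
    ⟨xs Y σ⟩
  have h2 := congrArg (fun f => ModuleCat.Hom.hom f (1 : ZMod 2)) h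
  refine Eq.trans h2 ?_
  change (α ((TopCat.toSSetObjEquiv (TopCat.of Y) (op ⦋m⦌)) (xs Y σ)) • LinearMap.id) (1 : ZMod 2)
    = α σ
  have e : (TopCat.toSSetObjEquiv (TopCat.of Y) (op ⦋m⦌)) (xs Y σ) = σ :=
    Equiv.apply_symm_apply _ _
  rw [e]
  simp

theorem map_eq_aff {k n : ℕ} (f : Fin k → Fin n) (s : Sx k) :
    stdSimplex.map f s = aff (vtx n ∘ f) s := by
  apply Subtype.ext
  funext j
  change FunOnFinite.linearMap ℝ ℝ f s j = _
  rw [FunOnFinite.linearMap_apply_apply, aff_val, Finset.sum_apply]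
  simp only [Function.comp_apply, vtx_val, Pi.smul_apply, smul_eq_mul]
  rw [Finset.sum_filter]
  refine Finset.sum_congr rfl fun i _ => ?_
  by_cases h : f i = j
  · subst h
    simp
    rfl
  · rw [if_neg h, Pi.single_eq_of_ne (Ne.symm h), mul_zero]

theorem delta_xs {m : ℕ} (σ : Sg (m + 2) Y) (i : Fin (m + 2)) :
    (TopCat.toSSet.obj (TopCat.of Y)).δ i (xs Y σ) = xs Y (face σ i) := by
  apply (TopCat.toSSetObjEquiv (TopCat.of Y) (op ⦋m⦌)).injective
  have e : (TopCat.toSSetObjEquiv (TopCat.of Y) (op ⦋m⦌)) (xs Y (face σ i)) = face σ i :=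
    Equiv.apply_symm_apply _ _
  rw [e]
  ext1 s
  change σ (stdSimplex.map (i.succAbove) s) = σ (aff (vtx (m + 2) ∘ i.succAbove) s)
  rw [map_eq_aff]

theorem d_gen {m : ℕ} (σ : Sg (m + 2) Y) :
    ModuleCat.Hom.hom ((KK Y).d (m + 1) m) (gen Y σ) = ∑ i, gen Y (face σ i) := by
  have h := SSet.ιChainComplex_d (X := TopCat.toSSet.obj (TopCat.of Y)) (R := RR) (xs Y σ)
  have h2 := congrArg (fun f => ModuleCat.Hom.hom f (1 : ZMod 2)) h
  refine Eq.trans h2 ?_
  simp only [delta_xs]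
  rw [ModuleCat.hom_sum, LinearMap.sum_apply]
  refine Finset.sum_congr rfl fun i _ => ?_
  have h1 : ((-1 : ℤ) ^ (i : ℕ)) = 1 ∨ ((-1 : ℤ) ^ (i : ℕ)) = -1 := neg_one_pow_eq_or ℤ i
  rcases h1 with h1 | h1
  · rw [h1, one_smul]
    rfl
  · rw [h1, neg_smul, one_smul]
    have h2 : ∀ v : (KK Y).X m, -v = v := by
      intro v
      have : (2 : ZMod 2) • v = 0 := by
        rw [show (2 : ZMod 2) = 0 from rfl, zero_smul]
      rw [two_smul] at this
      exact neg_eq_of_add_eq_zero_left this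
    exact h2 _

theorem ev_d {m : ℕ} (φ : (KK Y).X m →ₗ[ZMod 2] ZMod 2) :
    ev Y (m + 1) (φ ∘ₗ (ModuleCat.Hom.hom ((KK Y).d (m + 1) m))) = sdl (ev Y m φ) := by
  funext σ
  change φ (ModuleCat.Hom.hom ((KK Y).d (m + 1) m) (gen Y σ)) = _
  rw [d_gen, map_sum]
  rfl

theorem ev_mem_ZS {m : ℕ} (φ : (KK Y).X m →ₗ[ZMod 2] ZMod 2) :
    ev Y m φ ∈ ZS (m + 1) Y ↔ φ ∘ₗ (ModuleCat.Hom.hom ((KK Y).d (m + 1) m)) = 0 := by
  change sdl (ev Y m φ) = 0 ↔ _
  rw [← ev_d]
  constructor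
  · intro h
    exact ev_inj Y (m + 1) (h.trans (map_zero _).symm)
  · intro h
    rw [h, map_zero]

theorem ev_mem_BS {m : ℕ} (φ : (KK Y).X (m + 1) →ₗ[ZMod 2] ZMod 2) :
    ev Y (m + 1) φ ∈ BS (m + 2) Y ↔
      ∃ ψ : (KK Y).X m →ₗ[ZMod 2] ZMod 2, ψ ∘ₗ (ModuleCat.Hom.hom ((KK Y).d (m + 1) m)) = φ := by
  change (∃ β : SCo (m + 1) Y, ev Y (m + 1) φ = sdl β) ↔ _
  constructor
  · rintro ⟨β, hβ⟩
    obtain ⟨ψ, rfl⟩ := ev_surj Y m β
    exact ⟨ψ, ev_inj Y (m + 1) ((ev_d Y ψ).trans hβ.symm)⟩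
  · rintro ⟨ψ, rfl⟩
    exact ⟨ev Y m ψ, ev_d Y ψ⟩

/-- the homology of a short complex of modules as a quotient -/
noncomputable def scEquiv {k : Type} [Field k] (S : ShortComplex (ModuleCat.{0} k)) :
    S.homology ≃ₗ[k] (LinearMap.ker S.g.hom ⧸ LinearMap.range S.moduleCatToCycles) :=
  S.moduleCatHomologyIso.toLinearEquiv

theorem homology_succ (m : ℕ) :
    Module.finrank (ZMod 2) ((KK Y).homology (m + 1))
      = Module.finrank (ZMod 2) (HS' (m + 2) Y) ∧
    (Module.Finite (ZMod 2) (HS' (m + 2) Y) →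
      Module.Finite (ZMod 2) ((KK Y).homology (m + 1))) := by
  let e1 := ((KK Y).homologyIsoSc' (m + 2) (m + 1) m (by simp) (by simp)).toLinearEquiv.trans
    (scEquiv ((KK Y).sc' (m + 2) (m + 1) m))
  have h := finrank_hom_dual (ModuleCat.Hom.hom ((KK Y).d (m + 2) (m + 1)))
    (ModuleCat.Hom.hom ((KK Y).d (m + 1) m))
    (((KK Y).sc' (m + 2) (m + 1) m).moduleCatToCycles) (fun x => rfl) (ev Y (m + 1))
    ⟨ev_inj Y _, ev_surj Y _⟩ (ZS (m + 2) Y) (BS (m + 2) Y) (fun φ => ev_mem_ZS Y φ)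
    (fun φ => ev_mem_BS Y φ)
  exact ⟨e1.finrank_eq.trans h.1, fun hf => @Module.Finite.equiv _ _ _ _ _ _ _ _ (h.2 hf) e1.symm⟩

theorem homology_zero :
    Module.finrank (ZMod 2) ((KK Y).homology 0) = Module.finrank (ZMod 2) (HS' 1 Y) ∧
    (Module.Finite (ZMod 2) (HS' 1 Y) → Module.Finite (ZMod 2) ((KK Y).homology 0)) := by
  let e1 := ((KK Y).homologyIsoSc' 1 0 0 (by simp) (by simp)).toLinearEquiv.trans
    (scEquiv ((KK Y).sc' 1 0 0))
  have h := finrank_hom_dual (ModuleCat.Hom.hom ((KK Y).d 1 0))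
    (ModuleCat.Hom.hom ((KK Y).d 0 0)) (((KK Y).sc' 1 0 0).moduleCatToCycles)
    (fun x => rfl) (ev Y 0)
    ⟨ev_inj Y _, ev_surj Y _⟩ (ZS 1 Y) (BS 1 Y) (fun φ => ev_mem_ZS Y φ)
    (fun φ => by
      have h2 : (KK Y).d 0 0 = 0 := (KK Y).shape _ _ (by simp)
      change ev Y 0 φ = 0 ↔ _
      constructor
      · intro h
        refine ⟨0, ?_⟩
        rw [LinearMap.zero_comp]
        exact (ev_inj Y 0 (h.trans (map_zero _).symm)).symm
      · rintro ⟨ψ, rfl⟩
        rw [h2, ModuleCat.hom_zero, LinearMap.comp_zero, map_zero])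
  exact ⟨e1.finrank_eq.trans h.1, fun hf => @Module.Finite.equiv _ _ _ _ _ _ _ _ (h.2 hf) e1.symm⟩

/-- Mathlib's singular homology with `ZMod 2` coefficients has the dimension of the concrete
singular cohomology -/
theorem singularHomology_dual (m : ℕ) :
    Module.finrank (ZMod 2) (((singularHomologyFunctor (ModuleCat.{0} (ZMod 2)) m).obj
      (ModuleCat.of (ZMod 2) (ZMod 2))).obj (TopCat.of Y))
      = Module.finrank (ZMod 2) (HS' (m + 1) Y) ∧
    (Module.Finite (ZMod 2) (HS' (m + 1) Y) →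
      Module.Finite (ZMod 2) (((singularHomologyFunctor (ModuleCat.{0} (ZMod 2)) m).obj
      (ModuleCat.of (ZMod 2) (ZMod 2))).obj (TopCat.of Y))) := by
  cases m with
  | zero => exact homology_zero Y
  | succ m => exact homology_succ Y m

end mathlib

/-- **Comparison theorem**: for a compact neighbourhood retract `M` of a normed space, Mathlib's
singular homology of `M` with `ZMod 2` coefficients in degree `m` has the same dimension as the
Alexander-Spanier cohomology of `M` on `m + 1` points. -/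
theorem finrank_singularHomology_eq {E : Type} [NormedAddCommGroup E] [NormedSpace ℝ E]
    {M U : Set E} {r : E → E} (hM : IsCompact M) (R : Retr M U r) (m : ℕ) :
    Module.finrank (ZMod 2) (((AlgebraicTopology.singularHomologyFunctor
      (ModuleCat.{0} (ZMod 2)) m).obj (ModuleCat.of (ZMod 2) (ZMod 2))).obj (TopCat.of M))
      = Module.finrank (ZMod 2) (HA (m + 1) M ∅) :=
  (singularHomology_dual M m).1.trans (finrank_HS_eq hM R m)

/-- finiteness in the comparison theorem -/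
theorem finite_singularHomology {E : Type} [NormedAddCommGroup E] [NormedSpace ℝ E]
    {M U : Set E} {r : E → E} (hM : IsCompact M) (R : Retr M U r) (m : ℕ)
    (h : Module.Finite (ZMod 2) (HA (m + 1) M ∅)) :
    Module.Finite (ZMod 2) (((AlgebraicTopology.singularHomologyFunctor
      (ModuleCat.{0} (ZMod 2)) m).obj (ModuleCat.of (ZMod 2) (ZMod 2))).obj (TopCat.of M)) :=
  (singularHomology_dual M m).2 (Module.Finite.equiv (thEquiv hM R m).symm)

end SingHom
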