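import Mathlib
import Pool.Agent.Lib.SingHom.MathlibHom
import Pool.Agent.Lib.MP_f7aa1b_gt.ASC.Mod

/-!
# The rank of Mathlib's singular homology modulo 2 in terms of `ASC.HM`
-/

set_option autoImplicit false

namespace SingHom

open ASC

theorem ZA_eq {X : Type*} [PseudoMetricSpace X] (n : ℕ) (S S' : Set X) :
    ZA n S S' = Zc n S S' := rfl

theorem BA_eq {X : Type*} [PseudoMetricSpace X] (n : ℕ) (S S' : Set X) :
    BA n S S' = Bc n S S' := rfl

/-- the two definitions of the quotient module agree -/
noncomputable def HAequiv {X : Type*} [PseudoMetricSpace X] (n : ℕ) (S S' : Set X) :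
    HA n S S' ≃ₗ[ZMod 2] HM n S S' := LinearEquiv.refl (ZMod 2) (HM n S S')

/-- for a compact neighbourhood retract `M` of a normed space: if the Alexander-Spanier cohomology
`HM (m + 1) M ∅` (degree `m`) is finite dimensional, then Mathlib's singular homology of `M` in
degree `m` with `ZMod 2` coefficients has the same dimension -/
theorem rank_singularHomology {E : Type} [NormedAddCommGroup E] [NormedSpace ℝ E]
    {M U : Set E} {r : E → E} (hM : IsCompact M) (R : Retr M U r) (m : ℕ)
    (h : Module.Finite (ZMod 2) (HM (m + 1) M ∅)) :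
    Module.rank (ZMod 2) (((AlgebraicTopology.singularHomologyFunctor
      (ModuleCat.{0} (ZMod 2)) m).obj (ModuleCat.of (ZMod 2) (ZMod 2))).obj (TopCat.of M))
      = (Module.finrank (ZMod 2) (HM (m + 1) M ∅) : Cardinal) := by
  have h1 : Module.Finite (ZMod 2) (HA (m + 1) M ∅) := Module.Finite.equiv (HAequiv _ _ _).symm
  have h2 := finite_singularHomology hM R m h1
  have h3 := finrank_singularHomology_eq hM R m
  rw [← Module.finrank_eq_rank, h3, (HAequiv (m + 1) M ∅).finrank_eq]

end SingHom
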